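import Pool.Agent.X234.SD.Main
import Pool.Agent.X234.SC.Final

/-!
# From `ℤ_[p]` to rational numbers
-/

namespace Pool.Agent.X234.SD

open Finset
open Pool.Agent.X234.SC (rf CongrMod dl congr_of_norm)

/-- `S_r(p) = ∑_{0 ≤ k ≤ N} (2Nk - 1) ((-1/N)_k / k!)^(2N)` with `N = p^r - 1`. -/
def S (p r : ℕ) : ℚ :=
  ∑ k ∈ range (p ^ r - 1 + 1), (2 * ((p ^ r - 1 : ℕ) : ℚ) * k - 1) *
    (rf (-1 / ((p ^ r - 1 : ℕ) : ℚ)) k / (k.factorial : ℚ)) ^ (2 * (p ^ r - 1))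

variable (p : ℕ) [hp : Fact p.Prime]

lemma cast_u : ((s p : ℤ_[p]) : ℚ_[p]) * (1 - p) = p := by
  have := congrArg (fun x : ℤ_[p] => (x : ℚ_[p])) (s_mul p)
  push_cast at this
  exact this

lemma ratio {k : ℕ} (hk : k < p) :
    (((rf (-1 / ((p - 1 : ℕ) : ℚ)) k / (k.factorial : ℚ)) : ℚ) : ℚ_[p]) =
      ((Rp p k : ℤ_[p]) : ℚ_[p]) := by
  induction k with
  | zero => simp [rf, Rp, R]
  | succ k ih =>
    have ih' := ih (by omega)
    have e1 : rf (-1 / ((p - 1 : ℕ) : ℚ)) (k + 1) / ((k + 1).factorial : ℚ) =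
        (rf (-1 / ((p - 1 : ℕ) : ℚ)) k / (k.factorial : ℚ)) *
          ((-1 / ((p - 1 : ℕ) : ℚ) + k) / ((k : ℚ) + 1)) := by
      unfold rf
      rw [prod_range_succ, Nat.factorial_succ]
      push_cast
      have hf : (k.factorial : ℚ) ≠ 0 := by exact_mod_cast k.factorial_ne_zero
      have hk1 : (k : ℚ) + 1 ≠ 0 := by positivity
      field_simp
    rw [e1, Rat.cast_mul, ih']
    have e2 : Rp p (k + 1) = Rp p k * (1 + s p * w p k) := R_succ _ _ _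
    rw [e2]
    push_cast
    congr 1
    have hw := congrArg (fun x : ℤ_[p] => (x : ℚ_[p])) (w_mul p (i := k) (by omega))
    push_cast at hw
    have hs := cast_u p
    have hp1 := hp.out.one_lt
    have hc : (((p - 1 : ℕ)) : ℚ_[p]) = p - 1 := by
      push_cast [Nat.cast_sub hp1.le]; ring
    rw [hc]
    have hk1 : (k : ℚ_[p]) + 1 ≠ 0 := by
      have : ((k + 1 : ℕ) : ℚ_[p]) ≠ 0 := by
        rw [Nat.cast_ne_zero]; omega
      exact_mod_cast this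
    have hpp : (p : ℚ_[p]) - 1 ≠ 0 := by
      rw [← hc, Nat.cast_ne_zero]; omega
    rw [div_add' _ _ _ hpp, div_div, div_eq_iff (mul_ne_zero hpp hk1)]
    linear_combination (-(((s p : ℤ_[p]) : ℚ_[p]) * ((p : ℚ_[p]) - 1))) * hw + hs

lemma cast_S : ((S p 1 : ℚ) : ℚ_[p]) = -(((1 - (p : ℤ_[p])) * Sp p : ℤ_[p]) : ℚ_[p]) := by
  have hp1 := hp.out.one_lt
  have hpr : p - 1 + 1 = p := by omega
  unfold S Sp
  rw [pow_one, hpr, Rat.cast_sum, mul_sum, PadicInt.coe_sum, ← sum_neg_distrib]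
  apply sum_congr rfl
  intro k hk
  rw [mem_range] at hk
  rw [Rat.cast_mul, Rat.cast_pow, ratio p hk]
  have hs := cast_u p
  have hc : (((p - 1 : ℕ)) : ℚ_[p]) = p - 1 := by
    push_cast [Nat.cast_sub hp1.le]; ring
  have h2 : (((2 : ℤ_[p])) : ℚ_[p]) = 2 := by
    have := PadicInt.coe_natCast (p := p) 2
    exact_mod_cast this
  push_cast
  rw [hc, h2]
  linear_combination ((((Rp p k : ℤ_[p]) : ℚ_[p]) ^ (2 * (p - 1)))) * hs

theorem congr_five (h3 : 3 < p) : CongrMod p 5 (S p 1) 0 := by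
  apply congr_of_norm
  obtain ⟨t, ht⟩ := main p h3
  have h1 := cast_S p
  rw [ht] at h1
  have h2 : ‖((S p 1 : ℚ) : ℚ_[p])‖ = ((padicNorm p (S p 1) : ℚ) : ℝ) := Padic.eq_padicNorm _
  have h3' : ‖((S p 1 : ℚ) : ℚ_[p])‖ ≤ ((p : ℝ)⁻¹) ^ 5 := by
    rw [h1, norm_neg]
    push_cast
    rw [norm_mul, norm_pow, Padic.norm_p]
    calc ((p : ℝ)⁻¹) ^ 5 * ‖((t : ℤ_[p]) : ℚ_[p])‖ ≤ ((p : ℝ)⁻¹) ^ 5 * 1 := by
          apply mul_le_mul_of_nonneg_left _ (by positivity)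
          exact PadicInt.norm_le_one t
      _ = _ := mul_one _
  rw [h2] at h3'
  rw [sub_zero]
  have h4 : ((dl p ^ 5 : ℚ) : ℝ) = ((p : ℝ)⁻¹) ^ 5 := by
    unfold dl
    push_cast
    ring
  rw [← h4] at h3'
  exact_mod_cast h3'

end Pool.Agent.X234.SD
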