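import Mathlib

/-!
# Harmonic sums in `ℤ_[p]`
-/

namespace Pool.Agent.X234.SD

open Finset

section Ring

variable {A : Type*} [CommRing A]

lemma binom5 (x : A) (n : ℕ) : ∃ t : A, (1 + x) ^ n =
    1 + n * x + (n.choose 2) * x ^ 2 + (n.choose 3) * x ^ 3 + (n.choose 4) * x ^ 4 + x ^ 5 * t := by
  induction n with
  | zero => exact ⟨0, by simp⟩
  | succ n ih =>
    obtain ⟨t, ht⟩ := ih
    refine ⟨t * (1 + x) + (n.choose 4), ?_⟩
    rw [pow_succ, ht, Nat.choose_succ_succ' n 1, Nat.choose_succ_succ' n 2,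
      Nat.choose_succ_succ' n 3]
    push_cast
    rw [Nat.choose_one_right]
    ring

lemma binom3 (x : A) (n : ℕ) : ∃ t : A, (1 + x) ^ n =
    1 + n * x + (n.choose 2) * x ^ 2 + x ^ 3 * t := by
  obtain ⟨t, ht⟩ := binom5 x n
  exact ⟨(n.choose 3) + (n.choose 4) * x + x ^ 2 * t, by rw [ht]; ring⟩

/-- `∏ (1 + s w_j)` -/
def R (s : A) (w : ℕ → A) (n : ℕ) : A := ∏ j ∈ range n, (1 + s * w j)

/-- first harmonic sums -/
def E (w : ℕ → A) (n : ℕ) : A := ∑ j ∈ range n, w j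

/-- second order sums -/
def Q (w : ℕ → A) (n : ℕ) : A := ∑ j ∈ range n, w j ^ 2

/-- second elementary symmetric function -/
def F (w : ℕ → A) (n : ℕ) : A := ∑ j ∈ range n, w j * E w j

lemma R_succ (s : A) (w : ℕ → A) (n : ℕ) : R s w (n + 1) = R s w n * (1 + s * w n) :=
  prod_range_succ _ _
lemma E_succ (w : ℕ → A) (n : ℕ) : E w (n + 1) = E w n + w n := sum_range_succ _ _
lemma Q_succ (w : ℕ → A) (n : ℕ) : Q w (n + 1) = Q w n + w n ^ 2 := sum_range_succ _ _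
lemma F_succ (w : ℕ → A) (n : ℕ) : F w (n + 1) = F w n + w n * E w n := sum_range_succ _ _

lemma two_F (w : ℕ → A) (n : ℕ) : 2 * F w n = E w n ^ 2 - Q w n := by
  induction n with
  | zero => simp [F, E, Q]
  | succ n ih => rw [F_succ, E_succ, Q_succ]; linear_combination ih

lemma R_expand (s : A) (w : ℕ → A) (n : ℕ) :
    ∃ t, R s w n = 1 + s * E w n + s ^ 2 * F w n + s ^ 3 * t := by
  induction n with
  | zero => exact ⟨0, by simp [R, E, F]⟩
  | succ n ih =>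
    obtain ⟨t, ht⟩ := ih
    refine ⟨t * (1 + s * w n) + F w n * w n, ?_⟩
    rw [R_succ, E_succ, F_succ, ht]
    ring

/-- the basic summation by parts -/
lemma parts (s : A) (w : ℕ → A) (e n : ℕ) (hw : ∀ i < n, ((i : A) + 1) * w i = 1) :
    (1 - s) * ∑ k ∈ range (n + 1), (2 * (k : A) + 1 + s) * R s w k ^ e =
      ((n : A) + 1) ^ 2 * R s w n ^ e - s ^ 2 -
        ∑ i ∈ range n, ((i : A) + 1) ^ 2 * R s w i ^ e * ((1 + s * w i) ^ (e + 2) - 1) := by
  induction n with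
  | zero => simp [R]; ring
  | succ n ih =>
    have ih' := ih (fun i hi => hw i (by omega))
    rw [sum_range_succ _ (n + 1), mul_add, ih', sum_range_succ _ n]
    have h := hw n (by omega)
    have h2 : ((n : A) + 1 + s) = ((n : A) + 1) * (1 + s * w n) := by
      linear_combination (-s) * h
    have h3 : ((n : A) + 1 + s) ^ 2 * R s w (n + 1) ^ e =
        ((n : A) + 1) ^ 2 * R s w n ^ e * (1 + s * w n) ^ (e + 2) := by
      rw [h2, R_succ, mul_pow, mul_pow]; ring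
    push_cast
    linear_combination (-1) * h3

lemma sum_E (w : ℕ → A) (n : ℕ) (hw : ∀ i < n, ((i : A) + 1) * w i = 1) :
    ∑ i ∈ range n, E w i = n * E w n - n := by
  induction n with
  | zero => simp
  | succ n ih =>
    rw [sum_range_succ, ih (fun i hi => hw i (by omega)), E_succ]
    push_cast
    linear_combination (-1) * hw n (by omega)

lemma sum_Q (w : ℕ → A) (n : ℕ) (hw : ∀ i < n, ((i : A) + 1) * w i = 1) :
    ∑ i ∈ range n, Q w i = n * Q w n - E w n := by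
  induction n with
  | zero => simp [E]
  | succ n ih =>
    rw [sum_range_succ, ih (fun i hi => hw i (by omega)), Q_succ, E_succ]
    push_cast
    linear_combination (-w n) * hw n (by omega)

lemma sum_E_sq (w : ℕ → A) (n : ℕ) (hw : ∀ i < n, ((i : A) + 1) * w i = 1) :
    ∑ i ∈ range n, E w i ^ 2 = n * E w n ^ 2 - 2 * (∑ i ∈ range n, E w i) - E w n := by
  induction n with
  | zero => simp [E]
  | succ n ih =>
    rw [sum_range_succ, ih (fun i hi => hw i (by omega)), sum_range_succ, E_succ]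
    push_cast
    linear_combination (-(2 * E w n + w n)) * hw n (by omega)

end Ring

section Padic

variable (p : ℕ) [hp : Fact p.Prime]

/-- inverse of `i + 1` -/
noncomputable def w (i : ℕ) : ℤ_[p] := Ring.inverse ((i : ℤ_[p]) + 1)

/-- `s = p / (1 - p)` -/
noncomputable def s : ℤ_[p] := (p : ℤ_[p]) * Ring.inverse (1 - (p : ℤ_[p]))

lemma isUnit_cast {i : ℕ} (h : i + 1 < p) : IsUnit ((i : ℤ_[p]) + 1) := by
  have h1 : ¬ p ∣ (i + 1) := fun hd => by
    have := Nat.le_of_dvd (by omega) hd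
    omega
  rw [PadicInt.isUnit_iff]
  have h2 : ‖(((i + 1 : ℕ) : ℤ) : ℤ_[p])‖ = 1 := by
    by_contra hne
    have hlt : ‖(((i + 1 : ℕ) : ℤ) : ℤ_[p])‖ < 1 := lt_of_le_of_ne (PadicInt.norm_le_one _) hne
    rw [PadicInt.norm_int_lt_one_iff_dvd] at hlt
    exact h1 (by exact_mod_cast hlt)
  have h3 : (((i + 1 : ℕ) : ℤ) : ℤ_[p]) = (i : ℤ_[p]) + 1 := by push_cast; ring
  rw [h3] at h2
  exact h2

lemma w_mul {i : ℕ} (h : i + 1 < p) : ((i : ℤ_[p]) + 1) * w p i = 1 :=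
  Ring.mul_inverse_cancel _ (isUnit_cast p h)

lemma isUnit_one_sub : IsUnit (1 - (p : ℤ_[p])) := by
  rw [PadicInt.isUnit_iff]
  have h2 : ‖(((1 - (p : ℤ)) : ℤ) : ℤ_[p])‖ = 1 := by
    by_contra hne
    have hlt : ‖(((1 - (p : ℤ)) : ℤ) : ℤ_[p])‖ < 1 := lt_of_le_of_ne (PadicInt.norm_le_one _) hne
    rw [PadicInt.norm_int_lt_one_iff_dvd] at hlt
    have h1 : (p : ℤ) ∣ 1 := by
      have := dvd_add hlt (dvd_refl (p : ℤ))
      simpa using this
    have h4 := Int.le_of_dvd one_pos h1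
    have := hp.out.two_le
    omega
  simpa using h2

lemma s_mul : s p * (1 - p) = p := by
  unfold s
  rw [mul_assoc, mul_comm (Ring.inverse _), Ring.mul_inverse_cancel _ (isUnit_one_sub p), mul_one]

lemma s_dvd : ∃ u, s p = p * u := ⟨_, rfl⟩

lemma p_ne : (p : ℤ_[p]) ≠ 0 := by
  exact_mod_cast hp.out.ne_zero

lemma not_dvd_nat {m : ℕ} (h0 : 0 < m) (h : m < p) : ¬ (p : ℤ_[p]) ∣ (m : ℤ_[p]) := by
  intro hd
  obtain ⟨i, rfl⟩ : ∃ i, m = i + 1 := ⟨m - 1, by omega⟩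
  have hu := isUnit_cast p h
  have : IsUnit (p : ℤ_[p]) := isUnit_of_dvd_unit hd (by push_cast; exact hu)
  exact (PadicInt.prime_p (p := p)).not_isUnit this

lemma dvd_of_dvd_nat_mul {m : ℕ} (h0 : 0 < m) (h : m < p) {x : ℤ_[p]}
    (hd : (p : ℤ_[p]) ∣ (m : ℤ_[p]) * x) : (p : ℤ_[p]) ∣ x :=
  ((PadicInt.prime_p (p := p)).dvd_or_dvd hd).resolve_left (not_dvd_nat p h0 h)

lemma sum_zmod (f : ZMod p → ZMod p) : ∑ i ∈ range p, f (i : ZMod p) = ∑ x, f x := by
  apply Finset.sum_nbij (fun i : ℕ => (i : ZMod p))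
  · intro i _
    exact mem_univ _
  · intro i hi j hj hij
    simp only [coe_range, Set.mem_Iio] at hi hj
    have := (ZMod.natCast_eq_natCast_iff' i j p).1 hij
    rwa [Nat.mod_eq_of_lt hi, Nat.mod_eq_of_lt hj] at this
  · intro x _
    refine ⟨x.val, ?_, ?_⟩
    · simp [ZMod.val_lt x]
    · simp
  · intro i _
    rfl

/-- `p ∣ ∑ 1/i²` -/
lemma dvd_Q (h3 : 3 < p) : (p : ℤ_[p]) ∣ Q (w p) (p - 1) := by
  have hker : PadicInt.toZMod (Q (w p) (p - 1)) = 0 := by
    unfold Q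
    rw [map_sum]
    have h1 : ∀ i ∈ range (p - 1), PadicInt.toZMod (w p i ^ 2) =
        (((i + 1 : ℕ) : ZMod p)⁻¹) ^ 2 := by
      intro i hi
      rw [mem_range] at hi
      rw [map_pow]
      congr 1
      have h2 := congrArg PadicInt.toZMod (w_mul p (i := i) (by omega))
      rw [map_mul, map_add, map_one, map_natCast] at h2
      push_cast
      exact eq_inv_of_mul_eq_one_right h2
    rw [sum_congr rfl h1]
    have h4 : ∑ x : ZMod p, x ^ 2 = 0 := by
      apply FiniteField.sum_pow_lt_card_sub_one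
      rw [ZMod.card]
      omega
    have h5 : ∑ x : ZMod p, (x⁻¹) ^ 2 = 0 := by
      rw [← h4]
      exact Equiv.sum_comp (Equiv.inv (ZMod p)) (fun x => x ^ 2)
    have h6 := sum_zmod p (fun x => (x⁻¹) ^ 2)
    rw [h5] at h6
    obtain ⟨m, hm⟩ : ∃ m, p = m + 1 := ⟨p - 1, by omega⟩
    have h7 : range p = range (p - 1 + 1) := by rw [Nat.sub_add_cancel (by omega)]
    rw [h7, sum_range_succ'] at h6
    simpa using h6
  have h5 : Q (w p) (p - 1) ∈ RingHom.ker (PadicInt.toZMod (p := p)) := hker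
  rw [PadicInt.ker_toZMod, PadicInt.maximalIdeal_eq_span_p, Ideal.mem_span_singleton] at h5
  exact h5

/-- `p² ∣ ∑ 1/i` -/
lemma dvd_E (h3 : 3 < p) : (p : ℤ_[p]) ^ 2 ∣ E (w p) (p - 1) := by
  have hrefl : ∑ j ∈ range (p - 1), w p (p - 1 - 1 - j) = E (w p) (p - 1) :=
    sum_range_reflect (fun j => w p j) (p - 1)
  have h1 : ∀ j ∈ range (p - 1), w p j + w p (p - 1 - 1 - j) =
      p * (w p j * w p (p - 1 - 1 - j)) := by
    intro j hj
    rw [mem_range] at hj
    have ha := w_mul p (i := j) (by omega)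
    have hb := w_mul p (i := p - 1 - 1 - j) (by omega)
    have hc : ((p - 1 - 1 - j : ℕ) : ℤ_[p]) + 1 + ((j : ℤ_[p]) + 1) = p := by
      have : p - 1 - 1 - j + 1 + (j + 1) = p := by omega
      exact_mod_cast this
    linear_combination (-(w p (p - 1 - 1 - j))) * ha - (w p j) * hb +
      (w p j * w p (p - 1 - 1 - j)) * hc
  have h2 : 2 * E (w p) (p - 1) = p * ∑ j ∈ range (p - 1), w p j * w p (p - 1 - 1 - j) := by
    rw [mul_sum, ← sum_congr rfl h1, sum_add_distrib, hrefl]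
    unfold E
    ring
  have h4 : ∀ j ∈ range (p - 1), w p j * w p (p - 1 - 1 - j) =
      - w p j ^ 2 + p * (w p j ^ 2 * w p (p - 1 - 1 - j)) := by
    intro j hj
    have := h1 j hj
    linear_combination (w p j) * this
  rw [sum_congr rfl h4, sum_add_distrib, ← mul_sum] at h2
  obtain ⟨t, ht⟩ := dvd_Q p h3
  have h5 : ∑ j ∈ range (p - 1), -(w p j) ^ 2 = - (p * t) := by
    rw [sum_neg_distrib, ← ht]
    rfl
  rw [h5] at h2
  have h6 : (p : ℤ_[p]) ∣ ((2 : ℕ) : ℤ_[p]) * E (w p) (p - 1) := ⟨_, by push_cast; exact h2⟩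
  obtain ⟨u, hu⟩ := dvd_of_dvd_nat_mul p (by norm_num) (by omega) h6
  rw [hu] at h2 ⊢
  have h7 : 2 * u = p * (-t + ∑ j ∈ range (p - 1), w p j ^ 2 * w p (p - 1 - 1 - j)) := by
    apply mul_left_cancel₀ (p_ne p)
    linear_combination h2
  have h8 : (p : ℤ_[p]) ∣ ((2 : ℕ) : ℤ_[p]) * u := ⟨_, by push_cast; exact h7⟩
  obtain ⟨u', hu'⟩ := dvd_of_dvd_nat_mul p (by norm_num) (by omega) h8
  exact ⟨u', by rw [hu']; ring⟩

lemma dvd_F (h3 : 3 < p) : (p : ℤ_[p]) ∣ F (w p) (p - 1) := by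
  obtain ⟨a, ha⟩ := dvd_Q p h3
  obtain ⟨b, hb⟩ := dvd_E p h3
  have h := two_F (w p) (p - 1)
  rw [ha, hb] at h
  apply dvd_of_dvd_nat_mul p (m := 2) (by norm_num) (by omega)
  exact ⟨p ^ 3 * b ^ 2 - a, by push_cast; linear_combination h⟩

end Padic

end Pool.Agent.X234.SD
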