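import Pool.Agent.X234.SD.Seven4
import Pool.Agent.X234.SC.Final

/-!
# The congruence modulo `p^7` for rational numbers
-/

namespace Pool.Agent.X234.SD

open Finset
open Pool.Agent.X234.SC (rf CongrMod dl congr_of_norm norm_int_le)

/-- `α_r = (p^r - 1)/(p^(r+1) - 1)` -/
def al (p r : ℕ) : ℚ := ((p : ℚ) ^ r - 1) / ((p : ℚ) ^ (r + 1) - 1)

/-- `N_r = 1 + p + ... + p^r` -/
def NN (p r : ℕ) : ℕ := ∑ i ∈ range (r + 1), p ^ i

/-- `S_r(p) = ∑_{k < p^r} (2k/α_r + 1) ((α_r)_k / k!)^(2 N_r)`. -/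
def S7 (p r : ℕ) : ℚ :=
  ∑ k ∈ range (p ^ r), (2 * (k : ℚ) / al p r + 1) *
    (rf (al p r) k / (k.factorial : ℚ)) ^ (2 * NN p r)

lemma al_one {p : ℕ} (hp : 1 < p) : al p 1 = 1 / ((p : ℚ) + 1) := by
  unfold al
  have h1 : (1 : ℚ) < p := by exact_mod_cast hp
  have h2 : (p : ℚ) - 1 ≠ 0 := by linarith
  have h3 : (p : ℚ) + 1 ≠ 0 := by linarith
  have h4 : (p : ℚ) ^ (1 + 1) - 1 = (p - 1) * (p + 1) := by ring
  rw [h4]
  field_simp

lemma NN_one (p : ℕ) : 2 * NN p 1 = 2 * p + 2 := by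
  simp [NN, sum_range_succ]; ring

lemma S7_one {p : ℕ} (hp : 1 < p) : S7 p 1 = ∑ k ∈ range p, (2 * ((p : ℚ) + 1) * k + 1) *
    (rf (1 / ((p : ℚ) + 1)) k / (k.factorial : ℚ)) ^ (2 * p + 2) := by
  unfold S7
  rw [pow_one, al_one hp, NN_one]
  apply sum_congr rfl
  intro k _
  congr 2
  have h3 : (p : ℚ) + 1 ≠ 0 := by positivity
  field_simp

section

variable (p : ℕ) [hp : Fact p.Prime]

lemma ratio7 {v : ℤ_[p]} (hv : (1 + p) * v = 1) {k : ℕ} (hk : k < p) :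
    (((rf (1 / ((p : ℚ) + 1)) k / (k.factorial : ℚ)) : ℚ) : ℚ_[p]) =
      ((R (-(p * v)) (w p) k : ℤ_[p]) : ℚ_[p]) := by
  induction k with
  | zero => simp [rf, R]
  | succ k ih =>
    have ih' := ih (by omega)
    have e1 : rf (1 / ((p : ℚ) + 1)) (k + 1) / ((k + 1).factorial : ℚ) =
        (rf (1 / ((p : ℚ) + 1)) k / (k.factorial : ℚ)) *
          ((1 / ((p : ℚ) + 1) + k) / ((k : ℚ) + 1)) := by
      unfold rf
      rw [prod_range_succ, Nat.factorial_succ]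
      push_cast
      have hf : (k.factorial : ℚ) ≠ 0 := by exact_mod_cast k.factorial_ne_zero
      have hk1 : (k : ℚ) + 1 ≠ 0 := by positivity
      field_simp
    rw [e1, Rat.cast_mul, ih', R_succ]
    push_cast
    congr 1
    have hw := congrArg (fun x : ℤ_[p] => (x : ℚ_[p])) (w_mul p (i := k) (by omega))
    push_cast at hw
    have hv' := congrArg (fun x : ℤ_[p] => (x : ℚ_[p])) hv
    push_cast at hv'
    have hk1 : (k : ℚ_[p]) + 1 ≠ 0 := by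
      have : ((k + 1 : ℕ) : ℚ_[p]) ≠ 0 := by
        rw [Nat.cast_ne_zero]; omega
      exact_mod_cast this
    have hpp : (p : ℚ_[p]) + 1 ≠ 0 := by
      have : ((p + 1 : ℕ) : ℚ_[p]) ≠ 0 := by
        rw [Nat.cast_ne_zero]; omega
      exact_mod_cast this
    rw [div_add' _ _ _ hpp, div_div, div_eq_iff (mul_ne_zero hpp hk1)]
    linear_combination (p * ((v : ℤ_[p]) : ℚ_[p]) * ((p : ℚ_[p]) + 1)) * hw + p * hv'

lemma cast_S7 {v : ℤ_[p]} (hv : (1 + p) * v = 1) : ((S7 p 1 : ℚ) : ℚ_[p]) =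
    (((1 + (p : ℤ_[p])) * (∑ k ∈ range p, (2 * (k : ℤ_[p]) + 1 + (-(p * v))) *
      R (-(p * v)) (w p) k ^ (2 * p + 2)) : ℤ_[p]) : ℚ_[p]) := by
  rw [S7_one hp.out.one_lt, Rat.cast_sum, mul_sum, PadicInt.coe_sum]
  apply sum_congr rfl
  intro k hk
  rw [mem_range] at hk
  rw [Rat.cast_mul, Rat.cast_pow, ratio7 p hv hk]
  have hv' := congrArg (fun x : ℤ_[p] => (x : ℚ_[p])) hv
  have h2 : (((2 : ℤ_[p])) : ℚ_[p]) = 2 := by
    have := PadicInt.coe_natCast (p := p) 2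
    exact_mod_cast this
  push_cast at hv' ⊢
  rw [h2]
  linear_combination (p * ((R (-(p * v)) (w p) k : ℤ_[p]) : ℚ_[p]) ^ (2 * p + 2)) * hv'

theorem congr_seven_large (h7 : 6 < p) : CongrMod p 7 (S7 p 1) 0 := by
  apply congr_of_norm
  obtain ⟨v, hv⟩ := exists_v p
  obtain ⟨t, ht⟩ := main7 p hv h7
  have h1 := cast_S7 p hv
  obtain ⟨u, hs, hu⟩ : ∃ u : ℤ_[p], True ∧ (1 - (p : ℤ_[p])) * u = 1 :=
    ⟨Ring.inverse (1 - (p : ℤ_[p])), trivial, Ring.mul_inverse_cancel _ (isUnit_one_sub p)⟩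
  generalize (∑ k ∈ range p, (2 * (k : ℤ_[p]) + 1 + (-(p * v))) *
      R (-(p * v)) (w p) k ^ (2 * p + 2)) = T at *
  have hT : (1 + (p : ℤ_[p])) * T = p ^ 7 * ((1 + p) * u * t) := by
    linear_combination (1 + (p : ℤ_[p])) * u * ht - (1 + (p : ℤ_[p])) * T * hu
  rw [hT] at h1
  have h2 : ‖((S7 p 1 : ℚ) : ℚ_[p])‖ = ((padicNorm p (S7 p 1) : ℚ) : ℝ) := Padic.eq_padicNorm _
  have h3' : ‖((S7 p 1 : ℚ) : ℚ_[p])‖ ≤ ((p : ℝ)⁻¹) ^ 7 := by
    rw [h1, PadicInt.coe_mul, norm_mul]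
    have e1 : ‖((((p : ℤ_[p]) ^ 7 : ℤ_[p])) : ℚ_[p])‖ = ((p : ℝ)⁻¹) ^ 7 := by
      push_cast
      rw [norm_pow, Padic.norm_p]
    rw [e1]
    calc ((p : ℝ)⁻¹) ^ 7 * ‖(((1 + p) * u * t : ℤ_[p]) : ℚ_[p])‖ ≤ ((p : ℝ)⁻¹) ^ 7 * 1 := by
          apply mul_le_mul_of_nonneg_left _ (by positivity)
          exact PadicInt.norm_le_one _
      _ = _ := mul_one _
  rw [h2] at h3'
  rw [sub_zero]
  have h4 : ((dl p ^ 7 : ℚ) : ℝ) = ((p : ℝ)⁻¹) ^ 7 := by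
    unfold dl
    push_cast
    ring
  rw [← h4] at h3'
  exact_mod_cast h3'

end

theorem congr_seven_five : CongrMod 5 7 (S7 5 1) 0 := by
  have h5 : Fact (Nat.Prime 5) := ⟨by norm_num⟩
  rw [S7_one (by norm_num)]
  apply congr_of_norm
  have h : ∑ k ∈ range 5, (2 * (((5 : ℕ) : ℚ) + 1) * k + 1) *
      (rf (1 / (((5 : ℕ) : ℚ) + 1)) k / (k.factorial : ℚ)) ^ (2 * 5 + 2) =
      1 + 13 / 6 ^ 12 + 25 * (7 / 72) ^ 12 + 37 * (91 / 1296) ^ 12 + 49 * (1729 / 31104) ^ 12 := by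
    simp only [sum_range_succ, sum_range_zero, rf, prod_range_succ, prod_range_zero,
      Nat.factorial]
    norm_num
  rw [h, sub_zero]
  have h2 : (1 + 13 / 6 ^ 12 + 25 * (7 / 72) ^ 12 + 37 * (91 / 1296) ^ 12 +
      49 * (1729 / 31104) ^ 12 : ℚ) = (((5 ^ 7 : ℕ)) : ℚ) *
      ((10495542490988547232207122704393064851841543326357 : ℕ) : ℚ) / ((31104 ^ 12 : ℕ) : ℚ) := by
    norm_num
  rw [h2, padicNorm.div, padicNorm.mul]
  have h3 : padicNorm 5 ((31104 ^ 12 : ℕ) : ℚ) = 1 := by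
    rw [padicNorm.nat_eq_one_iff]
    norm_num
  rw [h3, div_one, Pool.Agent.X234.SC.norm_q (p := 5) 7]
  calc dl 5 ^ 7 * padicNorm 5 ((10495542490988547232207122704393064851841543326357 : ℕ) : ℚ)
      ≤ dl 5 ^ 7 * 1 := by
        apply mul_le_mul_of_nonneg_left (Pool.Agent.X234.SC.norm_nat_le _)
        exact pow_nonneg Pool.Agent.X234.SC.dl_pos.le _
    _ = _ := mul_one _

theorem congr_seven : ∀ p : ℕ, p.Prime → 3 < p → CongrMod p 7 (S7 p 1) 0 := by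
  intro p hp h3
  have h : Fact p.Prime := ⟨hp⟩
  rcases lt_or_ge 6 p with h6 | h6
  · exact congr_seven_large p h6
  · have h4 : p = 5 := by
      have h1 : p ≠ 4 := by rintro rfl; exact absurd hp (by norm_num)
      have h2 : p ≠ 6 := by rintro rfl; exact absurd hp (by norm_num)
      omega
    subst h4
    exact congr_seven_five

end Pool.Agent.X234.SD
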