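import Pool.Agent.X234.SD.Basic

/-!
# The main computation modulo `p^5`
-/

namespace Pool.Agent.X234.SD

open Finset

variable (p : ℕ) [hp : Fact p.Prime]

/-- abbreviation for the product at the `p`-adic data -/
noncomputable abbrev Rp (n : ℕ) : ℤ_[p] := R (s p) (w p) n

/-- `∑ (2k+1+s) R_k^(2p-2)` -/
noncomputable def Sp : ℤ_[p] :=
  ∑ k ∈ range p, (2 * (k : ℤ_[p]) + 1 + s p) * Rp p k ^ (2 * (p - 1))

lemma exists_u : ∃ u : ℤ_[p], s p = p * u ∧ (1 - p) * u = 1 := by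
  refine ⟨Ring.inverse (1 - (p : ℤ_[p])), rfl, Ring.mul_inverse_cancel _ (isUnit_one_sub p)⟩

lemma cast_pred : (((p - 1 : ℕ)) : ℤ_[p]) = p - 1 := by
  have := hp.out.one_lt
  push_cast [Nat.cast_sub this.le]
  ring

lemma cast_exp : (((2 * (p - 1) : ℕ)) : ℤ_[p]) = 2 * (p : ℤ_[p]) - 2 := by
  rw [Nat.cast_mul, cast_pred]
  push_cast
  ring

lemma choose_two_exp : (((2 * (p - 1)).choose 2 : ℕ) : ℤ_[p]) =
    ((p : ℤ_[p]) - 1) * (2 * p - 3) := by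
  obtain ⟨m, hm⟩ : ∃ m, p = m + 2 := ⟨p - 2, by have := hp.out.two_le; omega⟩
  have h1 : (2 * (p - 1)).choose 2 = (m + 1) * (2 * m + 1) := by
    rw [hm, Nat.choose_two_right]
    have : 2 * (m + 2 - 1) * (2 * (m + 2 - 1) - 1) = 2 * ((m + 1) * (2 * m + 1)) := by
      have h2 : m + 2 - 1 = m + 1 := rfl
      rw [h2]
      have h3 : 2 * (m + 1) - 1 = 2 * m + 1 := by omega
      rw [h3]; ring
    rw [this, Nat.mul_div_cancel_left _ (by norm_num)]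
  rw [h1]
  have h2 : (p : ℤ_[p]) = m + 2 := by exact_mod_cast congrArg (Nat.cast : ℕ → ℤ_[p]) hm
  rw [h2]
  push_cast
  ring

lemma choose_two_two_p : (((2 * p).choose 2 : ℕ) : ℤ_[p]) = (p : ℤ_[p]) * (2 * p - 1) := by
  obtain ⟨m, hm⟩ : ∃ m, p = m + 1 := ⟨p - 1, by have := hp.out.two_le; omega⟩
  have h1 : (2 * p).choose 2 = (m + 1) * (2 * m + 1) := by
    rw [hm, Nat.choose_two_right]
    have : 2 * (m + 1) * (2 * (m + 1) - 1) = 2 * ((m + 1) * (2 * m + 1)) := by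
      have h3 : 2 * (m + 1) - 1 = 2 * m + 1 := by omega
      rw [h3]; ring
    rw [this, Nat.mul_div_cancel_left _ (by norm_num)]
  rw [h1]
  have h2 : (p : ℤ_[p]) = m + 1 := by exact_mod_cast congrArg (Nat.cast : ℕ → ℤ_[p]) hm
  rw [h2]
  push_cast
  ring

omit hp in
lemma choose_dvd (hp' : p.Prime) (h3 : 3 < p) {m : ℕ} (hm : m + 1 ≤ 4) :
    ∃ c : ℕ, (2 * p).choose (m + 1) = p * c := by
  have h1 : p ≠ 4 := by rintro rfl; exact absurd hp' (by norm_num)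
  obtain ⟨N, hN⟩ : ∃ N, 2 * p = N + 1 := ⟨2 * p - 1, by omega⟩
  have h := Nat.add_one_mul_choose_eq N m
  rw [← hN] at h
  have h2 : p ∣ (2 * p).choose (m + 1) * (m + 1) := by
    rw [← h]
    exact Dvd.dvd.mul_right (Dvd.intro_left 2 rfl) _
  rcases hp'.dvd_mul.1 h2 with h3' | h3'
  · exact h3'
  · have := Nat.le_of_dvd (by omega) h3'
    omega

/-- value of the last product -/
lemma last (h3 : 3 < p) : ∃ r, Rp p (p - 1) ^ (2 * (p - 1)) = 1 + p ^ 3 * r := by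
  obtain ⟨u, hs, hu⟩ := exists_u p
  obtain ⟨t, ht⟩ := R_expand (s p) (w p) (p - 1)
  obtain ⟨a, ha⟩ := dvd_E p h3
  obtain ⟨b, hb⟩ := dvd_F p h3
  have h1 : Rp p (p - 1) = 1 + p ^ 3 * (u * a + u ^ 2 * b + u ^ 3 * t) := by
    rw [Rp, ht, ha, hb, hs]; ring
  rw [h1]
  obtain ⟨t', ht'⟩ := binom3 ((p : ℤ_[p]) ^ 3 * (u * a + u ^ 2 * b + u ^ 3 * t)) (2 * (p - 1))
  rw [ht']
  generalize (u * a + u ^ 2 * b + u ^ 3 * t) = z
  generalize (((2 * (p - 1) : ℕ)) : ℤ_[p]) = m1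
  generalize ((((2 * (p - 1)).choose 2 : ℕ)) : ℤ_[p]) = m2
  exact ⟨m1 * z + m2 * p ^ 3 * z ^ 2 + p ^ 6 * z ^ 3 * t', by ring⟩

lemma term_expand (n : ℕ) : ∃ t, Rp p n ^ (2 * (p - 1)) =
    1 + (2 * (p : ℤ_[p]) - 2) * (s p * E (w p) n + s p ^ 2 * F (w p) n) +
      ((p : ℤ_[p]) - 1) * (2 * p - 3) * s p ^ 2 * E (w p) n ^ 2 + p ^ 3 * t := by
  obtain ⟨u, hs, hu⟩ := exists_u p
  obtain ⟨t, ht⟩ := R_expand (s p) (w p) n
  obtain ⟨t', ht'⟩ := binom3 (s p * E (w p) n + s p ^ 2 * F (w p) n + s p ^ 3 * t) (2 * (p - 1))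
  have h1 : Rp p n ^ (2 * (p - 1)) =
      (1 + (s p * E (w p) n + s p ^ 2 * F (w p) n + s p ^ 3 * t)) ^ (2 * (p - 1)) := by
    rw [Rp, ht]; congr 1; ring
  rw [h1, ht', cast_exp, choose_two_exp, hs]
  generalize E (w p) n = x
  generalize F (w p) n = y
  refine ⟨(2 * (p : ℤ_[p]) - 2) * u ^ 3 * t + ((p : ℤ_[p]) - 1) * (2 * p - 3) *
    (2 * u * x * (u ^ 2 * y + u ^ 3 * p * t) + p * (u ^ 2 * y + u ^ 3 * p * t) ^ 2) +
    (u * x + u ^ 2 * p * y + u ^ 3 * p ^ 2 * t) ^ 3 * t', ?_⟩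
  ring

lemma Y0_eq (h3 : 3 < p) : ∃ y, ∑ i ∈ range (p - 1), Rp p i ^ (2 * (p - 1)) =
    -1 - p - 2 * p ^ 2 + p ^ 3 * y := by
  obtain ⟨u, hs, hu⟩ := exists_u p
  obtain ⟨h, hh⟩ := dvd_E p h3
  obtain ⟨g, hg⟩ := dvd_Q p h3
  choose t ht using term_expand p
  have hw : ∀ i < p - 1, ((i : ℤ_[p]) + 1) * w p i = 1 := fun i hi => w_mul p (by omega)
  have e1 := sum_E (w p) (p - 1) hw
  have e2 := sum_Q (w p) (p - 1) hw
  have e3 := sum_E_sq (w p) (p - 1) hw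
  have e4 : 2 * ∑ i ∈ range (p - 1), F (w p) i =
      (∑ i ∈ range (p - 1), E (w p) i ^ 2) - ∑ i ∈ range (p - 1), Q (w p) i := by
    rw [mul_sum, ← sum_sub_distrib]
    exact sum_congr rfl fun i _ => two_F (w p) i
  have e5 : ∑ i ∈ range (p - 1), Rp p i ^ (2 * (p - 1)) =
      ((p - 1 : ℕ) : ℤ_[p]) + (2 * (p : ℤ_[p]) - 2) * (s p * (∑ i ∈ range (p - 1), E (w p) i) +
        s p ^ 2 * ∑ i ∈ range (p - 1), F (w p) i) +
      ((p : ℤ_[p]) - 1) * (2 * p - 3) * s p ^ 2 * (∑ i ∈ range (p - 1), E (w p) i ^ 2) +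
      p ^ 3 * ∑ i ∈ range (p - 1), t i := by
    rw [sum_congr rfl (fun i _ => ht i)]
    simp only [sum_add_distrib, mul_sum, sum_const, card_range, nsmul_eq_mul, mul_add, mul_one]
  rw [e5]
  rw [e1] at e3 ⊢
  rw [e3, e2] at e4
  rw [e3]
  rw [hh, hg, cast_pred] at e4
  rw [hh, cast_pred, hs]
  generalize ∑ i ∈ range (p - 1), F (w p) i = SF at *
  generalize ∑ i ∈ range (p - 1), t i = T at *
  clear ht e1 e2 e3 e5 hw hs hh hg
  set P : ℤ_[p] := (p : ℤ_[p])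
  have a1 : (P - 1) * u = -1 := by linear_combination (-1) * hu
  refine ⟨2 * (1 - P) * h - 4 * u - u * (4 * P - 8 + 2 * (P - 1) * P *
    ((P - 1) * P ^ 2 * h ^ 2 - 2 * (P - 1) * h - h) - ((P - 1) * g - P * h)) + T, ?_⟩
  linear_combination ((P - 1) * (P * u) ^ 2) * e4 +
    (2 * P * (P - 1) * (P ^ 2 * h - 1) + P ^ 2 * u * ((2 * P - 2) *
      ((P - 1) * (P ^ 2 * h) ^ 2 - 2 * ((P - 1) * (P ^ 2 * h) - (P - 1)) - P ^ 2 * h) -
      ((P - 1) * (P * g) - P ^ 2 * h)) + 4 * P ^ 2) * a1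

lemma Ym_eq (h3 : 3 < p) : ∃ z, ∑ i ∈ range (p - 1), Rp p i ^ (2 * (p - 1)) * w p i = p * z := by
  obtain ⟨u, hs, hu⟩ := exists_u p
  obtain ⟨h, hh⟩ := dvd_E p h3
  have h1 : ∀ n, ∃ t, Rp p n ^ (2 * (p - 1)) = 1 + p * t := by
    intro n
    obtain ⟨t, ht⟩ := term_expand p n
    exact ⟨(2 * (p : ℤ_[p]) - 2) * (u * E (w p) n + u * s p * F (w p) n) +
      ((p : ℤ_[p]) - 1) * (2 * p - 3) * u * s p * E (w p) n ^ 2 + p ^ 2 * t, by
        rw [ht, hs]; ring⟩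
  choose t ht using h1
  have h2 : ∑ i ∈ range (p - 1), Rp p i ^ (2 * (p - 1)) * w p i =
      E (w p) (p - 1) + p * ∑ i ∈ range (p - 1), t i * w p i := by
    unfold E
    rw [mul_sum, ← sum_add_distrib]
    apply sum_congr rfl
    intro i _
    rw [ht i]; ring
  exact ⟨p * h + ∑ i ∈ range (p - 1), t i * w p i, by rw [h2, hh]; ring⟩

lemma per_term (h3 : 3 < p) : ∃ c : ℤ_[p], ∀ i, i < p - 1 → ∃ d,
    ((i : ℤ_[p]) + 1) ^ 2 * Rp p i ^ (2 * (p - 1)) * ((1 + s p * w p i) ^ (2 * (p - 1) + 2) - 1) =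
      2 * p * s p * (((i : ℤ_[p]) + 1) * Rp p i ^ (2 * (p - 1))) +
      p * (2 * p - 1) * s p ^ 2 * Rp p i ^ (2 * (p - 1)) +
      p * c * s p ^ 3 * (Rp p i ^ (2 * (p - 1)) * w p i) + p ^ 5 * d := by
  obtain ⟨u, hs, hu⟩ := exists_u p
  obtain ⟨c3, hc3⟩ := choose_dvd p hp.out h3 (m := 2) (by norm_num)
  obtain ⟨c4, hc4⟩ := choose_dvd p hp.out h3 (m := 3) (by norm_num)
  refine ⟨c3, fun i hi => ?_⟩
  have hw := w_mul p (i := i) (by omega)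
  obtain ⟨t, ht⟩ := binom5 (s p * w p i) (2 * p)
  have he : 2 * (p - 1) + 2 = 2 * p := by omega
  rw [he, ht, hc3, hc4, choose_two_two_p]
  push_cast
  generalize Rp p i ^ (2 * (p - 1)) = Y
  generalize w p i = x at *
  generalize (i : ℤ_[p]) = I at *
  rw [hs]
  have e2 : (I + 1) ^ 2 * x ^ 2 = 1 := by
    have : (I + 1) ^ 2 * x ^ 2 = ((I + 1) * x) ^ 2 := by ring
    rw [this, hw]; ring
  refine ⟨Y * (c4 * u ^ 4 * x ^ 2 + u ^ 5 * x ^ 3 * t), ?_⟩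
  generalize (p : ℤ_[p]) = P
  linear_combination (Y * (2 * P * (P * u) * (I + 1))) * hw +
    (Y * (P * (2 * P - 1) * (P * u) ^ 2 + P * c3 * (P * u) ^ 3 * x + P * c4 * (P * u) ^ 4 * x ^ 2 +
      (P * u) ^ 5 * x ^ 3 * t)) * e2

theorem main (h3 : 3 < p) : ∃ t, (1 - (p : ℤ_[p])) * Sp p = p ^ 5 * t := by
  obtain ⟨u, hs, hu⟩ := exists_u p
  obtain ⟨r, hr⟩ := last p h3
  obtain ⟨y, hy⟩ := Y0_eq p h3
  obtain ⟨z, hz⟩ := Ym_eq p h3
  obtain ⟨c, hc⟩ := per_term p h3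
  have h1p := hp.out.one_lt
  have hpr : p - 1 + 1 = p := by omega
  -- extend d to a function
  have hd : ∃ d : ℕ → ℤ_[p], ∀ i ∈ range (p - 1),
    ((i : ℤ_[p]) + 1) ^ 2 * Rp p i ^ (2 * (p - 1)) * ((1 + s p * w p i) ^ (2 * (p - 1) + 2) - 1) =
      2 * p * s p * (((i : ℤ_[p]) + 1) * Rp p i ^ (2 * (p - 1))) +
      p * (2 * p - 1) * s p ^ 2 * Rp p i ^ (2 * (p - 1)) +
      p * c * s p ^ 3 * (Rp p i ^ (2 * (p - 1)) * w p i) + p ^ 5 * d i := by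
    choose d hd using hc
    refine ⟨fun i => if h : i < p - 1 then d i h else 0, fun i hi => ?_⟩
    rw [mem_range] at hi
    simp only [hi, dif_pos]
    exact hd i hi
  obtain ⟨d, hd⟩ := hd
  have hw : ∀ i < p - 1, ((i : ℤ_[p]) + 1) * w p i = 1 := fun i hi => w_mul p (by omega)
  have hparts := parts (s p) (w p) (2 * (p - 1)) (p - 1) hw
  rw [hpr, sum_congr rfl hd, sum_add_distrib, sum_add_distrib, sum_add_distrib, ← mul_sum,
    ← mul_sum, ← mul_sum, ← mul_sum, hy, hz, hr] at hparts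
  have hS : Sp p = 2 * (∑ i ∈ range (p - 1), ((i : ℤ_[p]) + 1) * Rp p i ^ (2 * (p - 1))) +
      (s p - 1) * (∑ i ∈ range (p - 1), Rp p i ^ (2 * (p - 1))) +
      (2 * p - 1 + s p) * Rp p (p - 1) ^ (2 * (p - 1)) := by
    have e1 : Sp p = ∑ k ∈ range (p - 1 + 1), (2 * (k : ℤ_[p]) + 1 + s p) *
        Rp p k ^ (2 * (p - 1)) := by rw [hpr]; rfl
    rw [e1, sum_range_succ, mul_sum, mul_sum, ← sum_add_distrib, cast_pred]
    congr 1
    · apply sum_congr rfl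
      intro i _
      ring
    · ring
  rw [hy, hr] at hS
  have hSp : ∑ k ∈ range p, (2 * (k : ℤ_[p]) + 1 + s p) * R (s p) (w p) k ^ (2 * (p - 1)) =
    Sp p := rfl
  rw [hSp, cast_pred, hs] at hparts
  rw [hs] at hS
  generalize Sp p = T at *
  generalize ∑ i ∈ range (p - 1), ((i : ℤ_[p]) + 1) * Rp p i ^ (2 * (p - 1)) = Y1 at *
  generalize ∑ i ∈ range (p - 1), d i = D at *
  clear hc hd hy hz hr hw hSp
  generalize (p : ℤ_[p]) = P at *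
  refine ⟨-4 * u + r * (1 + u * (2 * P - 1 + P * u)) - u * (1 - 2 * P) * y - c * u ^ 3 * z - D, ?_⟩
  linear_combination hparts + (P ^ 2 * u) * hS +
    (T * P + 2 * P ^ 3 * u * (-1 - P - 2 * P ^ 2 + P ^ 3 * y) - P ^ 2 * (1 + u)) * hu

end Pool.Agent.X234.SD
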