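import Pool.Agent.X234.SD.Basic

/-!
# Tools for the congruence modulo `p^7`
-/

namespace Pool.Agent.X234.SD

open Finset

section Ring

variable {A : Type*} [CommRing A]

lemma binom7 (x : A) (n : ℕ) : ∃ t : A, (1 + x) ^ n =
    1 + n * x + (n.choose 2) * x ^ 2 + (n.choose 3) * x ^ 3 + (n.choose 4) * x ^ 4 +
      (n.choose 5) * x ^ 5 + (n.choose 6) * x ^ 6 + x ^ 7 * t := by
  induction n with
  | zero => exact ⟨0, by simp⟩
  | succ n ih =>
    obtain ⟨t, ht⟩ := ih
    refine ⟨t * (1 + x) + (n.choose 6), ?_⟩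
    rw [pow_succ, ht, Nat.choose_succ_succ' n 1, Nat.choose_succ_succ' n 2,
      Nat.choose_succ_succ' n 3, Nat.choose_succ_succ' n 4, Nat.choose_succ_succ' n 5]
    push_cast
    rw [Nat.choose_one_right]
    ring

/-- third power sums -/
def K (w : ℕ → A) (n : ℕ) : A := ∑ j ∈ range n, w j ^ 3

/-- third elementary symmetric function -/
def G (w : ℕ → A) (n : ℕ) : A := ∑ j ∈ range n, w j * F w j

/-- `∑ w² E` -/
def MM (w : ℕ → A) (n : ℕ) : A := ∑ j ∈ range n, w j ^ 2 * E w j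

lemma K_succ (w : ℕ → A) (n : ℕ) : K w (n + 1) = K w n + w n ^ 3 := sum_range_succ _ _
lemma G_succ (w : ℕ → A) (n : ℕ) : G w (n + 1) = G w n + w n * F w n := sum_range_succ _ _
lemma MM_succ (w : ℕ → A) (n : ℕ) : MM w (n + 1) = MM w n + w n ^ 2 * E w n :=
  sum_range_succ _ _

lemma six_G (w : ℕ → A) (n : ℕ) : 6 * G w n = E w n ^ 3 - 3 * E w n * Q w n + 2 * K w n := by
  induction n with
  | zero => simp [G, E, Q, K]
  | succ n ih =>
    rw [G_succ, E_succ, Q_succ, K_succ]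
    linear_combination ih + 3 * w n * two_F w n

lemma R_expand4 (s : A) (w : ℕ → A) (n : ℕ) :
    ∃ t, R s w n = 1 + s * E w n + s ^ 2 * F w n + s ^ 3 * G w n + s ^ 4 * t := by
  induction n with
  | zero => exact ⟨0, by simp [R, E, F, G]⟩
  | succ n ih =>
    obtain ⟨t, ht⟩ := ih
    refine ⟨t * (1 + s * w n) + G w n * w n, ?_⟩
    rw [R_succ, E_succ, F_succ, G_succ, ht]
    ring

/-- summation by parts, other sign -/
lemma parts' (s : A) (w : ℕ → A) (e n : ℕ) (hw : ∀ i < n, ((i : A) + 1) * w i = 1) :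
    (1 + s) * ∑ k ∈ range (n + 1), (2 * (k : A) + 1 + s) * R s w k ^ e =
      ((n : A) + 1 + s) ^ 2 * R s w n ^ e -
        ∑ i ∈ range n, ((i : A) + 1) ^ 2 * R s w i ^ e *
          ((1 + s * w i) ^ e - (1 + s * w i) ^ 2) := by
  induction n with
  | zero => simp [R]; ring
  | succ n ih =>
    have ih' := ih (fun i hi => hw i (by omega))
    rw [sum_range_succ _ (n + 1), mul_add, ih', sum_range_succ _ n]
    have h := hw n (by omega)
    have h2 : ((n : A) + 1 + s) = ((n : A) + 1) * (1 + s * w n) := by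
      linear_combination (-s) * h
    have h3 : ((n : A) + 1 + s) ^ 2 * R s w n ^ e =
        ((n : A) + 1) ^ 2 * R s w n ^ e * (1 + s * w n) ^ 2 := by
      rw [h2]; ring
    have h4 : R s w (n + 1) ^ e = R s w n ^ e * (1 + s * w n) ^ e := by
      rw [R_succ, mul_pow]
    push_cast
    rw [h4]
    linear_combination h3

lemma sum_K (w : ℕ → A) (n : ℕ) (hw : ∀ i < n, ((i : A) + 1) * w i = 1) :
    ∑ i ∈ range n, K w i = n * K w n - Q w n := by
  induction n with
  | zero => simp [Q]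
  | succ n ih =>
    rw [sum_range_succ, ih (fun i hi => hw i (by omega)), Q_succ, K_succ]
    push_cast
    linear_combination (-w n ^ 2) * hw n (by omega)

lemma sum_EQ (w : ℕ → A) (n : ℕ) (hw : ∀ i < n, ((i : A) + 1) * w i = 1) :
    ∑ i ∈ range n, E w i * Q w i =
      n * (E w n * Q w n) - (∑ i ∈ range n, Q w i) - F w n - Q w n := by
  induction n with
  | zero => simp [F, Q]
  | succ n ih =>
    rw [sum_range_succ, ih (fun i hi => hw i (by omega)), sum_range_succ, E_succ, Q_succ, F_succ]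
    push_cast
    linear_combination (-(Q w n + w n * E w n + w n ^ 2)) * hw n (by omega)

lemma sum_wEE (w : ℕ → A) (n : ℕ) :
    3 * ∑ i ∈ range n, w i * E w i ^ 2 = E w n ^ 3 - 3 * MM w n - K w n := by
  induction n with
  | zero => simp [E, MM, K]
  | succ n ih =>
    rw [sum_range_succ, mul_add, ih, E_succ, MM_succ, K_succ]
    ring

lemma sum_wQ (w : ℕ → A) (n : ℕ) :
    ∑ i ∈ range n, w i * Q w i = E w n * Q w n - MM w n - K w n := by
  induction n with
  | zero => simp [E, MM, K]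
  | succ n ih =>
    rw [sum_range_succ, ih, E_succ, MM_succ, K_succ, Q_succ]
    ring

end Ring

section Padic

variable (p : ℕ) [hp : Fact p.Prime]

lemma exists_inv {m : ℕ} (h0 : 0 < m) (h : m < p) : ∃ v : ℤ_[p], (m : ℤ_[p]) * v = 1 := by
  obtain ⟨i, rfl⟩ : ∃ i, m = i + 1 := ⟨m - 1, by omega⟩
  exact ⟨w p i, by push_cast; exact w_mul p h⟩

lemma exists_v : ∃ v : ℤ_[p], (1 + p) * v = 1 := by
  have h : IsUnit (1 + (p : ℤ_[p])) := by
    rw [PadicInt.isUnit_iff]
    have h2 : ‖(((1 + (p : ℤ)) : ℤ) : ℤ_[p])‖ = 1 := by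
      by_contra hne
      have hlt : ‖(((1 + (p : ℤ)) : ℤ) : ℤ_[p])‖ < 1 := lt_of_le_of_ne (PadicInt.norm_le_one _) hne
      rw [PadicInt.norm_int_lt_one_iff_dvd] at hlt
      have h1 : (p : ℤ) ∣ 1 := by
        have := dvd_sub hlt (dvd_refl (p : ℤ))
        simpa using this
      have h4 := Int.le_of_dvd one_pos h1
      have := hp.out.two_le
      omega
    simpa using h2
  exact ⟨Ring.inverse _, Ring.mul_inverse_cancel _ h⟩

/-- reflection -/
lemma refl {j : ℕ} (hj : j < p - 1) :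
    w p (p - 1 - 1 - j) = - w p j + p * (w p j * w p (p - 1 - 1 - j)) := by
  have ha := w_mul p (i := j) (by omega)
  have hb := w_mul p (i := p - 1 - 1 - j) (by omega)
  have hc : ((p - 1 - 1 - j : ℕ) : ℤ_[p]) + 1 + ((j : ℤ_[p]) + 1) = p := by
    have : p - 1 - 1 - j + 1 + (j + 1) = p := by omega
    exact_mod_cast this
  linear_combination (-(w p (p - 1 - 1 - j))) * ha - (w p j) * hb +
    (w p j * w p (p - 1 - 1 - j)) * hc

lemma dvd_K (h3 : 3 < p) : (p : ℤ_[p]) ∣ K (w p) (p - 1) := by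
  have hrefl : ∑ j ∈ range (p - 1), w p (p - 1 - 1 - j) ^ 3 = K (w p) (p - 1) :=
    sum_range_reflect (fun j => w p j ^ 3) (p - 1)
  have h1 : ∀ j ∈ range (p - 1), ∃ t, w p j ^ 3 + w p (p - 1 - 1 - j) ^ 3 = p * t := by
    intro j hj
    rw [mem_range] at hj
    have h := refl p hj
    generalize w p (p - 1 - 1 - j) = b at *
    generalize w p j = a at *
    refine ⟨(a * b) * (a ^ 2 - a * b + b ^ 2), ?_⟩
    have : a + b = p * (a * b) := by linear_combination h
    calc a ^ 3 + b ^ 3 = (a + b) * (a ^ 2 - a * b + b ^ 2) := by ring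
      _ = _ := by rw [this]; ring
  apply dvd_of_dvd_nat_mul p (m := 2) (by norm_num) (by omega)
  have h2 : ((2 : ℕ) : ℤ_[p]) * K (w p) (p - 1) =
      ∑ j ∈ range (p - 1), (w p j ^ 3 + w p (p - 1 - 1 - j) ^ 3) := by
    rw [sum_add_distrib, hrefl]
    unfold K
    push_cast
    ring
  rw [h2]
  apply dvd_sum
  intro j hj
  obtain ⟨t, ht⟩ := h1 j hj
  exact ⟨t, ht⟩

/-- `2 E = -p Q + p^3 a` -/
lemma two_E (h3 : 3 < p) : ∃ a, 2 * E (w p) (p - 1) = - p * Q (w p) (p - 1) + p ^ 3 * a := by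
  have hrefl : ∑ j ∈ range (p - 1), w p (p - 1 - 1 - j) = E (w p) (p - 1) :=
    sum_range_reflect (fun j => w p j) (p - 1)
  obtain ⟨k, hk⟩ := dvd_K p h3
  have h1 : ∀ j ∈ range (p - 1), w p j + w p (p - 1 - 1 - j) =
      - p * w p j ^ 2 - p ^ 2 * w p j ^ 3 + p ^ 3 * (w p j ^ 3 * w p (p - 1 - 1 - j)) := by
    intro j hj
    rw [mem_range] at hj
    have h := refl p hj
    generalize w p (p - 1 - 1 - j) = b at *
    generalize w p j = a at *
    linear_combination (1 + p * a + p ^ 2 * a ^ 2) * h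
  have h2 : 2 * E (w p) (p - 1) = ∑ j ∈ range (p - 1), (w p j + w p (p - 1 - 1 - j)) := by
    rw [sum_add_distrib, hrefl]
    unfold E
    ring
  rw [h2, sum_congr rfl h1, sum_add_distrib, sum_sub_distrib, ← mul_sum, ← mul_sum, ← mul_sum]
  have e1 : ∑ i ∈ range (p - 1), w p i ^ 2 = Q (w p) (p - 1) := rfl
  have e2 : ∑ i ∈ range (p - 1), w p i ^ 3 = K (w p) (p - 1) := rfl
  rw [e1, e2, hk]
  exact ⟨-k + ∑ i ∈ range (p - 1), w p i ^ 3 * w p (p - 1 - 1 - i), by ring⟩

/-- the values for `s = -p` -/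
lemma R_neg {n : ℕ} (hn : n ≤ p - 1) :
    R (-(p : ℤ_[p])) (w p) n = (-1) ^ n * ((p - 1).choose n : ℤ_[p]) := by
  induction n with
  | zero => simp [R]
  | succ n ih =>
    rw [R_succ, ih (by omega)]
    have hw := w_mul p (i := n) (by omega)
    have h1 := Nat.choose_succ_right_eq (p - 1) n
    have h2 : (((p - 1).choose (n + 1) : ℕ) : ℤ_[p]) * ((n : ℤ_[p]) + 1) =
        ((p - 1).choose n : ℤ_[p]) * ((p : ℤ_[p]) - 1 - n) := by
      have h3 := congrArg (Nat.cast : ℕ → ℤ_[p]) h1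
      push_cast at h3
      rw [Nat.cast_sub (by omega), Nat.cast_sub hp.out.one_lt.le] at h3
      push_cast at h3
      exact h3
    generalize (((p - 1).choose (n + 1) : ℕ) : ℤ_[p]) = c' at *
    generalize (((p - 1).choose n : ℕ) : ℤ_[p]) = c at *
    rw [pow_succ]
    linear_combination (-1) ^ n * (w p n * h2) - (-1) ^ n * (c' + c) * hw

/-- the values for `s = p` -/
lemma R_pos {n : ℕ} (hn : n ≤ p - 1) :
    R (p : ℤ_[p]) (w p) n = ((p + n).choose n : ℤ_[p]) := by
  induction n with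
  | zero => simp [R]
  | succ n ih =>
    rw [R_succ, ih (by omega)]
    have hw := w_mul p (i := n) (by omega)
    have h1 := Nat.add_one_mul_choose_eq (p + n) n
    have h2 := congrArg (Nat.cast : ℕ → ℤ_[p]) h1
    push_cast at h2
    have e : p + (n + 1) = p + n + 1 := rfl
    rw [e]
    generalize (((p + n).choose n : ℕ) : ℤ_[p]) = c at *
    generalize (((p + n + 1).choose (n + 1) : ℕ) : ℤ_[p]) = c' at *
    linear_combination (w p n) * h2 + (c' - c) * hw

lemma R_neg_sq {n : ℕ} (hn : n ≤ p - 1) :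
    R (-(p : ℤ_[p])) (w p) n ^ 2 = ((p - 1).choose n : ℤ_[p]) ^ 2 := by
  rw [R_neg p hn, mul_pow, ← pow_mul, mul_comm n 2, pow_mul]
  simp

/-- `∑ B_n² = C(2p-2, p-1)` -/
lemma sum_sq : ∑ n ∈ range p, R (-(p : ℤ_[p])) (w p) n ^ 2 = ((2 * p - 2).choose (p - 1) : ℤ_[p]) := by
  have h1 : ∀ n ∈ range p, R (-(p : ℤ_[p])) (w p) n ^ 2 =
      ((((p - 1).choose n) * ((p - 1).choose (p - 1 - n)) : ℕ) : ℤ_[p]) := by
    intro n hn
    rw [mem_range] at hn
    rw [R_neg_sq p (by omega), Nat.choose_symm (by omega)]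
    push_cast
    ring
  rw [sum_congr rfl h1, ← Nat.cast_sum]
  congr 1
  have h2 : 2 * p - 2 = (p - 1) + (p - 1) := by omega
  rw [h2, Nat.add_choose_eq, Finset.Nat.sum_antidiagonal_eq_sum_range_succ
    (fun i j => (p - 1).choose i * (p - 1).choose j)]
  have h3 := hp.out.one_lt
  have h4 : (p - 1).succ = p := by omega
  rw [h4]

/-- `p ∑ B_i² w_i = C(2p-1,p-1) - 1` -/
lemma sum_sq_w : (p : ℤ_[p]) * ∑ i ∈ range (p - 1), R (-(p : ℤ_[p])) (w p) i ^ 2 * w p i =
    ((2 * p - 1).choose (p - 1) : ℤ_[p]) - 1 := by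
  have h3 := hp.out.one_lt
  have h1 : ∀ i ∈ range (p - 1), (p : ℤ_[p]) * (R (-(p : ℤ_[p])) (w p) i ^ 2 * w p i) =
      ((((p - 1).choose i) * (p.choose (p - 1 - i)) : ℕ) : ℤ_[p]) := by
    intro i hi
    rw [mem_range] at hi
    rw [R_neg_sq p (by omega)]
    have hw := w_mul p (i := i) (by omega)
    have h5 : p.choose (p - 1 - i) = p.choose (i + 1) := by
      rw [← Nat.choose_symm (by omega : p - 1 - i ≤ p)]
      congr 1
      omega
    have h6 := Nat.add_one_mul_choose_eq (p - 1) i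
    have h7 : p - 1 + 1 = p := by omega
    rw [h7] at h6
    have h8 := congrArg (Nat.cast : ℕ → ℤ_[p]) h6
    push_cast at h8
    rw [h5]
    push_cast
    generalize (((p - 1).choose i : ℕ) : ℤ_[p]) = c at *
    generalize ((p.choose (i + 1) : ℕ) : ℤ_[p]) = c' at *
    linear_combination (c * w p i) * h8 + (c * c') * hw
  rw [mul_sum, sum_congr rfl h1, ← Nat.cast_sum]
  have h2 : 2 * p - 1 = (p - 1) + p := by omega
  have h4 : (p - 1).succ = p - 1 + 1 := rfl
  have h9 : (2 * p - 1).choose (p - 1) =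
      (∑ i ∈ range (p - 1), (p - 1).choose i * p.choose (p - 1 - i)) + 1 := by
    rw [h2, Nat.add_choose_eq, Finset.Nat.sum_antidiagonal_eq_sum_range_succ
      (fun i j => (p - 1).choose i * p.choose j), h4, sum_range_succ]
    simp
  rw [h9]
  push_cast
  ring

lemma choose_rel : (1 - 2 * (p : ℤ_[p])) * ((2 * p - 2).choose (p - 1) : ℤ_[p]) =
    - p * ((2 * p - 1).choose (p - 1) : ℤ_[p]) := by
  have h3 := hp.out.one_lt
  have h1 := Nat.add_one_mul_choose_eq (2 * p - 2) (p - 1)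
  have e1 : 2 * p - 2 + 1 = 2 * p - 1 := by omega
  have e2 : p - 1 + 1 = p := by omega
  rw [e1, e2] at h1
  have e3 : (2 * p - 1).choose p = (2 * p - 1).choose (p - 1) := by
    rw [← Nat.choose_symm (by omega : p ≤ 2 * p - 1)]
    congr 1
    omega
  rw [e3] at h1
  have h2 := congrArg (Nat.cast : ℕ → ℤ_[p]) h1
  push_cast at h2
  rw [Nat.cast_sub (by omega)] at h2
  push_cast at h2
  linear_combination (-1) * h2

end Padic

end Pool.Agent.X234.SD
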