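import Pool.Agent.X234.SD.Seven

/-!
# The expansion modulo `p^5` of the `(2p+2)`-nd powers
-/

namespace Pool.Agent.X234.SD

open Finset

section Padic

variable (p : ℕ) [hp : Fact p.Prime]

omit hp in
lemma choose_dvd' (hp' : p.Prime) {m : ℕ} (h3 : 3 ≤ m) (hm : m < p) :
    ∃ c : ℕ, (2 * p + 2).choose m = p * c := by
  obtain ⟨k, rfl⟩ : ∃ k, m = k + 3 := ⟨m - 3, by omega⟩
  have h1 := Nat.add_one_mul_choose_eq (2 * p + 1) (k + 2)
  have h2 := Nat.add_one_mul_choose_eq (2 * p) (k + 1)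
  have h3' := Nat.add_one_mul_choose_eq (2 * p - 1) k
  have e : 2 * p - 1 + 1 = 2 * p := by have := hp'.pos; omega
  rw [e] at h3'
  have hd : p ∣ (2 * p + 2).choose (k + 3) * ((k + 3) * (k + 2) * (k + 1)) := by
    have : (2 * p + 2).choose (k + 3) * ((k + 3) * (k + 2) * (k + 1)) =
        p * ((2 * p + 2) * (2 * p + 1) * (2 * (2 * p - 1).choose k)) := by
      calc (2 * p + 2).choose (k + 3) * ((k + 3) * (k + 2) * (k + 1))
          = ((2 * p + 1 + 1).choose (k + 2 + 1) * (k + 2 + 1)) * ((k + 2) * (k + 1)) := by ring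
        _ = (2 * p + 1 + 1) * (((2 * p + 1).choose (k + 1 + 1)) * (k + 1 + 1)) * (k + 1) := by
            rw [← h1]; ring
        _ = (2 * p + 1 + 1) * ((2 * p + 1) * (((2 * p).choose (k + 1)) * (k + 1))) := by
            rw [← h2]; ring
        _ = _ := by rw [← h3']; ring
    rw [this]
    exact Nat.dvd_mul_right _ _
  have hnd : ∀ j, 0 < j → j < p → ¬ p ∣ j := fun j h0 h hd => by
    have := Nat.le_of_dvd h0 hd; omega
  rcases hp'.dvd_mul.1 hd with h | h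
  · exact h
  · exfalso
    rcases hp'.dvd_mul.1 h with h | h
    · rcases hp'.dvd_mul.1 h with h | h
      · exact hnd _ (by omega) hm h
      · exact hnd _ (by omega) (by omega) h
    · exact hnd _ (by omega) (by omega) h

lemma choose2 : (((2 * p + 2).choose 2 : ℕ) : ℤ_[p]) = ((p : ℤ_[p]) + 1) * (2 * p + 1) := by
  have h : (2 * p + 2).choose 2 = (p + 1) * (2 * p + 1) := by
    rw [Nat.choose_two_right]
    have : (2 * p + 2) * (2 * p + 2 - 1) = 2 * ((p + 1) * (2 * p + 1)) := by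
      have e : 2 * p + 2 - 1 = 2 * p + 1 := rfl
      rw [e]; ring
    rw [this, Nat.mul_div_cancel_left _ (by norm_num)]
  rw [h]; push_cast; ring

lemma choose3 : 3 * (((2 * p + 2).choose 3 : ℕ) : ℤ_[p]) =
    2 * p * ((p : ℤ_[p]) + 1) * (2 * p + 1) := by
  have h1 := Nat.choose_succ_right_eq (2 * p + 2) 2
  have h2 := congrArg (Nat.cast : ℕ → ℤ_[p]) h1
  have e : 2 * p + 2 - 2 = 2 * p := rfl
  rw [e] at h2
  push_cast at h2
  rw [choose2] at h2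
  linear_combination h2

lemma choose4 : 6 * (((2 * p + 2).choose 4 : ℕ) : ℤ_[p]) =
    p * ((p : ℤ_[p]) + 1) * (2 * p + 1) * (2 * p - 1) := by
  have h1 := Nat.choose_succ_right_eq (2 * p + 2) 3
  have h2 := congrArg (Nat.cast : ℕ → ℤ_[p]) h1
  have e : 2 * p + 2 - 3 = 2 * p - 1 := rfl
  rw [e] at h2
  push_cast at h2
  rw [Nat.cast_sub (by have := hp.out.pos; omega)] at h2
  push_cast at h2
  have h4 : (2 : ℤ_[p]) * (6 * (((2 * p + 2).choose 4 : ℕ) : ℤ_[p])) =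
      2 * (p * ((p : ℤ_[p]) + 1) * (2 * p + 1) * (2 * p - 1)) := by
    linear_combination 3 * h2 + (2 * (p : ℤ_[p]) - 1) * choose3 p
  have h5 : (2 : ℤ_[p]) ≠ 0 := by
    have : ((2 : ℕ) : ℤ_[p]) ≠ 0 := by exact_mod_cast (by norm_num : (2 : ℕ) ≠ 0)
    exact_mod_cast this
  exact mul_left_cancel₀ h5 h4

/-- one factor -/
lemma step {v τ : ℤ_[p]} (hv : (1 + p) * v = 1) (hτ : 3 * τ = 1) (h5 : 4 < p) (x : ℤ_[p]) :
    ∃ t, (1 + (-(p * v)) * x) ^ (2 * p + 2) =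
      (1 + (-(p : ℤ_[p])) * x) ^ 2 * (1 + p ^ 3 * (x ^ 2 + p * (4 * τ * x ^ 3 - x ^ 2))) +
        p ^ 5 * t := by
  obtain ⟨t, ht⟩ := binom5 ((-(p * v)) * x) (2 * p + 2)
  obtain ⟨c4, hc4⟩ := choose_dvd' p hp.out (m := 4) (by norm_num) h5
  have h3 : (((2 * p + 2).choose 3 : ℕ) : ℤ_[p]) = τ * (2 * p * ((p : ℤ_[p]) + 1) * (2 * p + 1)) := by
    linear_combination τ * choose3 p - (((2 * p + 2).choose 3 : ℕ) : ℤ_[p]) * hτ
  rw [ht, choose2, h3, hc4]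
  push_cast
  generalize (p : ℤ_[p]) = P at *
  refine ⟨x ^ 2 * v + 2 * τ * P * v ^ 2 * x ^ 3 + c4 * v ^ 4 * x ^ 4 - v ^ 5 * x ^ 5 * t - x ^ 4 +
    2 * x * (4 * τ * x ^ 3 - x ^ 2) - P * x ^ 2 * (4 * τ * x ^ 3 - x ^ 2), ?_⟩
  linear_combination (-2 * P * x + P ^ 2 * x ^ 2 * ((2 * P + 1) * v + (1 + P - P ^ 2)) -
    P ^ 4 * x ^ 3 * τ * ((2 + 4 * P) * v ^ 2 + 2 * (1 + P) * v + 2)) * hv -
    2 * P ^ 4 * x ^ 3 * hτ

/-- the main expansion -/
lemma star {v τ : ℤ_[p]} (hv : (1 + p) * v = 1) (hτ : 3 * τ = 1) (h5 : 4 < p) (n : ℕ) :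
    ∃ t, R (-(p * v)) (w p) n ^ (2 * p + 2) =
      R (-(p : ℤ_[p])) (w p) n ^ 2 *
        (1 + p ^ 3 * (Q (w p) n + p * (4 * τ * K (w p) n - Q (w p) n))) + p ^ 5 * t := by
  induction n with
  | zero => exact ⟨0, by simp [R, Q, K]⟩
  | succ n ih =>
    obtain ⟨t, ht⟩ := ih
    obtain ⟨t', ht'⟩ := step p hv hτ h5 (w p n)
    rw [R_succ, R_succ, mul_pow, ht, ht', Q_succ, K_succ]
    generalize (p : ℤ_[p]) = P at *
    generalize R (-P) (w p) n = B at *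
    generalize Q (w p) n = q at *
    generalize K (w p) n = k at *
    generalize w p n = x at *
    refine ⟨B ^ 2 * (1 + P ^ 3 * (q + P * (4 * τ * k - q))) * t' +
      t * ((1 + (-P) * x) ^ 2 * (1 + P ^ 3 * (x ^ 2 + P * (4 * τ * x ^ 3 - x ^ 2))) + P ^ 5 * t') +
      P * B ^ 2 * (1 + (-P) * x) ^ 2 * (q + P * (4 * τ * k - q)) *
        (x ^ 2 + P * (4 * τ * x ^ 3 - x ^ 2)), ?_⟩
    ring

lemma B_expand (n : ℕ) : ∃ t, R (-(p : ℤ_[p])) (w p) n ^ 2 =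
    1 - 2 * p * E (w p) n + p ^ 2 * (2 * E (w p) n ^ 2 - Q (w p) n) + p ^ 3 * t := by
  obtain ⟨t, ht⟩ := R_expand (-(p : ℤ_[p])) (w p) n
  have h2 := two_F (w p) n
  rw [ht]
  generalize (p : ℤ_[p]) = P at *
  generalize E (w p) n = x at *
  generalize F (w p) n = y at *
  generalize Q (w p) n = z at *
  refine ⟨-2 * t - 2 * x * y + 2 * P * x * t + P * (y - P * t) ^ 2, ?_⟩
  linear_combination (P ^ 2) * h2

end Padic

end Pool.Agent.X234.SD
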