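import Pool.Agent.X234.SD.Seven2

/-!
# The sums needed modulo `p^7`
-/

namespace Pool.Agent.X234.SD

open Finset

section Padic

variable (p : ℕ) [hp : Fact p.Prime]

lemma val_C (h5 : 4 < p) : ∃ c, ((2 * p - 1).choose (p - 1) : ℤ_[p]) =
    1 - p ^ 2 * Q (w p) (p - 1) + p ^ 4 * c := by
  obtain ⟨η, hη⟩ := exists_inv p (m := 2) (by norm_num) (by omega)
  obtain ⟨τ, hτ⟩ := exists_inv p (m := 3) (by norm_num) (by omega)
  obtain ⟨t, ht⟩ := R_expand4 (p : ℤ_[p]) (w p) (p - 1)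
  obtain ⟨κ, hκ⟩ := dvd_Q p (by omega)
  obtain ⟨b, hb⟩ := dvd_E p (by omega)
  obtain ⟨k, hk⟩ := dvd_K p (by omega)
  obtain ⟨a, ha⟩ := two_E p (by omega)
  have h2 := two_F (w p) (p - 1)
  have h6 := six_G (w p) (p - 1)
  have e : p + (p - 1) = 2 * p - 1 := by omega
  rw [R_pos p le_rfl, e] at ht
  rw [ht]
  push_cast at hη hτ
  generalize Q (w p) (p - 1) = q at *
  generalize E (w p) (p - 1) = x at *
  generalize F (w p) (p - 1) = y at *
  generalize G (w p) (p - 1) = g at *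
  generalize K (w p) (p - 1) = k' at *
  generalize (p : ℤ_[p]) = P at *
  -- x = η (-P q + P^3 a), y = η (x^2 - q), g = η τ (x^3 - 3 x q + 2 k')
  have hx : x = η * (-P * q + P ^ 3 * a) := by linear_combination η * ha - x * hη
  have hy : y = η * (x ^ 2 - q) := by linear_combination η * h2 - y * hη
  have hg : g = η * τ * (x ^ 3 - 3 * x * q + 2 * k') := by
    linear_combination η * τ * h6 - (3 * τ * g) * hη - g * hτ
  have hg' : g = P * (η * τ * (P ^ 5 * b ^ 3 - 3 * P ^ 2 * b * κ + 2 * k)) := by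
    rw [hg, hb, hκ, hk]; ring
  have hy' : P ^ 2 * y = - η * P ^ 2 * q + P ^ 6 * (η * b ^ 2) := by
    rw [hy, hb]; ring
  refine ⟨η * a + P ^ 2 * η * b ^ 2 + η * τ * (P ^ 5 * b ^ 3 - 3 * P ^ 2 * b * κ + 2 * k) + t,
    ?_⟩
  linear_combination P * hx + hy' + P ^ 3 * hg' - P ^ 2 * q * hη

lemma val_V (h5 : 4 < p) : ∃ c, ∑ i ∈ range (p - 1), R (-(p : ℤ_[p])) (w p) i ^ 2 * w p i =
    - p * Q (w p) (p - 1) + p ^ 3 * c := by
  obtain ⟨c, hc⟩ := val_C p h5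
  have h := sum_sq_w p
  rw [hc] at h
  refine ⟨c, ?_⟩
  apply mul_left_cancel₀ (p_ne p)
  linear_combination h

lemma val_M (h5 : 4 < p) {η : ℤ_[p]} (hη : 2 * η = 1) :
    ∃ m, p * MM (w p) (p - 1) = (1 + η) * Q (w p) (p - 1) + p ^ 2 * m := by
  obtain ⟨τ, hτ⟩ := exists_inv p (m := 3) (by norm_num) (by omega)
  obtain ⟨c, hc⟩ := val_V p h5
  choose t ht using B_expand p
  have e1 : ∑ i ∈ range (p - 1), R (-(p : ℤ_[p])) (w p) i ^ 2 * w p i =
      E (w p) (p - 1) - 2 * p * F (w p) (p - 1) +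
        p ^ 2 * (2 * (∑ i ∈ range (p - 1), w p i * E (w p) i ^ 2) -
          ∑ i ∈ range (p - 1), w p i * Q (w p) i) + p ^ 3 * ∑ i ∈ range (p - 1), t i * w p i := by
    have eE : E (w p) (p - 1) = ∑ i ∈ range (p - 1), w p i := rfl
    have eF : F (w p) (p - 1) = ∑ i ∈ range (p - 1), w p i * E (w p) i := rfl
    rw [eE, eF]
    simp only [mul_sum, ← sum_add_distrib, ← sum_sub_distrib]
    apply sum_congr rfl
    intro i _
    rw [ht i]
    ring
  have hS1 := sum_wEE (w p) (p - 1)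
  have hS2 := sum_wQ (w p) (p - 1)
  obtain ⟨κ, hκ⟩ := dvd_Q p (by omega)
  obtain ⟨b, hb⟩ := dvd_E p (by omega)
  obtain ⟨k, hk⟩ := dvd_K p (by omega)
  obtain ⟨a, ha⟩ := two_E p (by omega)
  have h2 := two_F (w p) (p - 1)
  rw [hc] at e1
  push_cast at hτ
  have hp0 := p_ne p
  generalize Q (w p) (p - 1) = q at *
  generalize E (w p) (p - 1) = x at *
  generalize F (w p) (p - 1) = y at *
  generalize K (w p) (p - 1) = k' at *
  generalize MM (w p) (p - 1) = M at *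
  generalize ∑ i ∈ range (p - 1), t i * w p i = T at *
  generalize ∑ i ∈ range (p - 1), w p i * E (w p) i ^ 2 = S1 at *
  generalize ∑ i ∈ range (p - 1), w p i * Q (w p) i = S2 at *
  generalize (p : ℤ_[p]) = P at *
  have hx : x = η * (-P * q + P ^ 3 * a) := by linear_combination η * ha - x * hη
  have hS1' : S1 = τ * (x ^ 3 - 3 * M - k') := by linear_combination τ * hS1 - S1 * hτ
  -- 2 S1 - S2 = -M + P * (...)
  have h3 : 2 * S1 - S2 = -M + P * (2 * τ * (P ^ 5 * b ^ 3 - k) - P ^ 2 * b * κ + k) := by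
    rw [hS1', hS2, hb, hκ, hk]
    linear_combination (-2 * M) * hτ
  have h4 : 2 * P * y = P * (P ^ 4 * b ^ 2 - q) := by
    rw [← mul_comm y, ← mul_assoc, mul_comm y]
    linear_combination P * h2 + P * (x + P ^ 2 * b) * hb
  refine ⟨η * a - P * b ^ 2 * P + (2 * τ * (P ^ 5 * b ^ 3 - k) - P ^ 2 * b * κ + k) + T - c, ?_⟩
  apply mul_left_cancel₀ hp0
  linear_combination e1 + hx - h4 + P ^ 2 * h3 - P * q * hη

lemma val_rho {v τ : ℤ_[p]} (hv : (1 + p) * v = 1) (hτ : 3 * τ = 1) (h5 : 4 < p) :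
    ∃ r, R (-(p * v)) (w p) (p - 1) ^ (2 * p + 2) = 1 + p ^ 4 * r := by
  obtain ⟨t, ht⟩ := star p hv hτ h5 (p - 1)
  obtain ⟨κ, hκ⟩ := dvd_Q p (by omega)
  rw [ht, R_neg_sq p le_rfl, Nat.choose_self, hκ]
  refine ⟨κ + 4 * τ * K (w p) (p - 1) - p * κ + p * t, ?_⟩
  push_cast
  ring

lemma val_Z {v τ : ℤ_[p]} (hv : (1 + p) * v = 1) (hτ : 3 * τ = 1) (h5 : 4 < p) :
    ∃ z, ∑ n ∈ range p, R (-(p * v)) (w p) n ^ (2 * p + 2) =
      ((2 * p - 2).choose (p - 1) : ℤ_[p]) + p ^ 5 * z := by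
  choose t ht using star p hv hτ h5
  choose b' hb' using B_expand p
  have hpr : range p = range (p - 1 + 1) := by rw [Nat.sub_add_cancel (by omega)]
  have hw : ∀ i < p - 1, ((i : ℤ_[p]) + 1) * w p i = 1 := fun i hi => w_mul p (by omega)
  obtain ⟨κ, hκ⟩ := dvd_Q p (by omega)
  obtain ⟨b, hb⟩ := dvd_E p (by omega)
  obtain ⟨k, hk⟩ := dvd_K p (by omega)
  obtain ⟨f, hf⟩ := dvd_F p (by omega)
  have hc : (((p - 1 : ℕ)) : ℤ_[p]) = p - 1 := by
    push_cast [Nat.cast_sub hp.out.one_lt.le]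
    ring
  -- sums over range p
  have hQ : ∑ n ∈ range p, Q (w p) n = p ^ 2 * (κ - b) := by
    rw [hpr, sum_range_succ, sum_Q (w p) (p - 1) hw, hc, hκ, hb]; ring
  have hK : ∑ n ∈ range p, K (w p) n = p * (p * k - κ) := by
    rw [hpr, sum_range_succ, sum_K (w p) (p - 1) hw, hc, hκ, hk]; ring
  have hEQ : ∑ n ∈ range p, E (w p) n * Q (w p) n =
      p * (p ^ 3 * b * κ - (p - 1) * κ + p * b - f - κ) := by
    rw [hpr, sum_range_succ, sum_EQ (w p) (p - 1) hw, sum_Q (w p) (p - 1) hw, hc, hκ, hb, hf]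
    ring
  have h1 : ∀ n ∈ range p, R (-(p * v)) (w p) n ^ (2 * p + 2) =
      R (-(p : ℤ_[p])) (w p) n ^ 2 + p ^ 3 * Q (w p) n - 2 * p ^ 4 * (E (w p) n * Q (w p) n) +
        p ^ 4 * (4 * τ * K (w p) n - Q (w p) n) + p ^ 5 * (t n +
          (2 * E (w p) n ^ 2 - Q (w p) n + p * b' n) * (Q (w p) n) +
          (-2 * E (w p) n + p * (2 * E (w p) n ^ 2 - Q (w p) n + p * b' n)) *
            (4 * τ * K (w p) n - Q (w p) n)) := by
    intro n _
    rw [ht n, hb' n]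
    ring
  rw [sum_congr rfl h1, sum_add_distrib, sum_add_distrib, sum_sub_distrib, sum_add_distrib,
    sum_sq, ← mul_sum, ← mul_sum, ← mul_sum, ← mul_sum, sum_sub_distrib, ← mul_sum, hQ, hK, hEQ]
  generalize ∑ n ∈ range p, (t n + (2 * E (w p) n ^ 2 - Q (w p) n + p * b' n) * (Q (w p) n) +
          (-2 * E (w p) n + p * (2 * E (w p) n ^ 2 - Q (w p) n + p * b' n)) *
            (4 * τ * K (w p) n - Q (w p) n)) = T
  exact ⟨(κ - b) - 2 * (p ^ 3 * b * κ - (p - 1) * κ + p * b - f - κ) +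
    (4 * τ * (p * k - κ) - p * (κ - b)) + T, by ring⟩

lemma val_Y1 {v τ : ℤ_[p]} (hv : (1 + p) * v = 1) (hτ : 3 * τ = 1) (h5 : 4 < p) :
    ∃ y, ∑ i ∈ range (p - 1), R (-(p * v)) (w p) i ^ (2 * p + 2) * w p i =
      - p * Q (w p) (p - 1) + p ^ 3 * y := by
  choose t ht using star p hv hτ h5
  obtain ⟨c, hc⟩ := val_V p h5
  have h1 : ∀ i ∈ range (p - 1), R (-(p * v)) (w p) i ^ (2 * p + 2) * w p i =
      R (-(p : ℤ_[p])) (w p) i ^ 2 * w p i + p ^ 3 * ((R (-(p : ℤ_[p])) (w p) i ^ 2 *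
        (Q (w p) i + p * (4 * τ * K (w p) i - Q (w p) i)) + p ^ 2 * t i) * w p i) := by
    intro i _
    rw [ht i]
    ring
  rw [sum_congr rfl h1, sum_add_distrib, ← mul_sum, hc]
  generalize ∑ i ∈ range (p - 1), (R (-(p : ℤ_[p])) (w p) i ^ 2 *
        (Q (w p) i + p * (4 * τ * K (w p) i - Q (w p) i)) + p ^ 2 * t i) * w p i = T
  exact ⟨c + T, by ring⟩

lemma val_Y2 {v τ : ℤ_[p]} (hv : (1 + p) * v = 1) (hτ : 3 * τ = 1) (h5 : 4 < p) :
    ∃ y, ∑ i ∈ range (p - 1), R (-(p * v)) (w p) i ^ (2 * p + 2) * w p i ^ 2 =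
      - 2 * Q (w p) (p - 1) + p ^ 2 * y := by
  choose t ht using star p hv hτ h5
  choose b' hb' using B_expand p
  obtain ⟨η, hη⟩ := exists_inv p (m := 2) (by norm_num) (by omega)
  obtain ⟨m, hm⟩ := val_M p h5 (η := η) (by exact_mod_cast hη)
  push_cast at hη
  have h1 : ∀ i ∈ range (p - 1), R (-(p * v)) (w p) i ^ (2 * p + 2) * w p i ^ 2 =
      w p i ^ 2 - 2 * p * (w p i ^ 2 * E (w p) i) + p ^ 2 * ((2 * E (w p) i ^ 2 - Q (w p) i +
        p * b' i + p * ((R (-(p : ℤ_[p])) (w p) i ^ 2 *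
        (Q (w p) i + p * (4 * τ * K (w p) i - Q (w p) i)) + p ^ 2 * t i))) * w p i ^ 2) := by
    intro i _
    have h2 := hb' i
    rw [ht i]
    linear_combination (w p i ^ 2) * h2
  have e1 : ∑ i ∈ range (p - 1), w p i ^ 2 = Q (w p) (p - 1) := rfl
  have e2 : ∑ i ∈ range (p - 1), w p i ^ 2 * E (w p) i = MM (w p) (p - 1) := rfl
  rw [sum_congr rfl h1, sum_add_distrib, sum_sub_distrib, ← mul_sum, ← mul_sum, e1, e2]
  refine ⟨-2 * m + ∑ i ∈ range (p - 1), (2 * E (w p) i ^ 2 - Q (w p) i +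
        p * b' i + p * ((R (-(p : ℤ_[p])) (w p) i ^ 2 *
        (Q (w p) i + p * (4 * τ * K (w p) i - Q (w p) i)) + p ^ 2 * t i))) * w p i ^ 2, ?_⟩
  linear_combination (-2) * hm - Q (w p) (p - 1) * hη

lemma val_Y3 {v τ : ℤ_[p]} (hv : (1 + p) * v = 1) (hτ : 3 * τ = 1) (h5 : 4 < p) :
    ∃ y, ∑ i ∈ range (p - 1), R (-(p * v)) (w p) i ^ (2 * p + 2) * w p i ^ 3 = p * y := by
  choose t ht using star p hv hτ h5
  choose b' hb' using B_expand p
  obtain ⟨k, hk⟩ := dvd_K p (by omega)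
  have h1 : ∀ i ∈ range (p - 1), R (-(p * v)) (w p) i ^ (2 * p + 2) * w p i ^ 3 =
      w p i ^ 3 + p * ((- 2 * E (w p) i + p * (2 * E (w p) i ^ 2 - Q (w p) i +
        p * b' i) + p ^ 2 * ((R (-(p : ℤ_[p])) (w p) i ^ 2 *
        (Q (w p) i + p * (4 * τ * K (w p) i - Q (w p) i)) + p ^ 2 * t i))) * w p i ^ 3) := by
    intro i _
    have h2 := hb' i
    rw [ht i]
    linear_combination (w p i ^ 3) * h2
  have e1 : ∑ i ∈ range (p - 1), w p i ^ 3 = K (w p) (p - 1) := rfl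
  rw [sum_congr rfl h1, sum_add_distrib, ← mul_sum, e1, hk, ← mul_add]
  exact ⟨_, rfl⟩

end Padic

end Pool.Agent.X234.SD
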