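import Pool.Agent.X234.SD.Seven3

/-!
# The congruence modulo `p^7`
-/

namespace Pool.Agent.X234.SD

open Finset

section Padic

variable (p : ℕ) [hp : Fact p.Prime]

lemma per_term7 {v : ℤ_[p]} (h7 : 6 < p) : ∃ c : ℤ_[p], ∃ d : ℕ → ℤ_[p], ∀ i ∈ range (p - 1),
    ((i : ℤ_[p]) + 1) ^ 2 * R (-(p * v)) (w p) i ^ (2 * p + 2) *
      ((1 + (-(p * v)) * w p i) ^ (2 * p + 2) - (1 + (-(p * v)) * w p i) ^ 2) =
      -(2 * p ^ 2 * v) * (((i : ℤ_[p]) + 1) * R (-(p * v)) (w p) i ^ (2 * p + 2)) +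
      (2 * p ^ 2 + 3 * p) * (p ^ 2 * v ^ 2) * R (-(p * v)) (w p) i ^ (2 * p + 2) +
      (-(((2 * p + 2).choose 3 : ℕ) : ℤ_[p]) * (p ^ 3 * v ^ 3)) *
        (R (-(p * v)) (w p) i ^ (2 * p + 2) * w p i) +
      (((2 * p + 2).choose 4 : ℕ) : ℤ_[p]) * (p ^ 4 * v ^ 4) *
        (R (-(p * v)) (w p) i ^ (2 * p + 2) * w p i ^ 2) +
      p ^ 6 * c * (R (-(p * v)) (w p) i ^ (2 * p + 2) * w p i ^ 3) + p ^ 7 * d i := by
  obtain ⟨c5, hc5⟩ := choose_dvd' p hp.out (m := 5) (by norm_num) (by omega)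
  obtain ⟨c6, hc6⟩ := choose_dvd' p hp.out (m := 6) (by norm_num) (by omega)
  choose t ht using fun i => binom7 ((-(p * v)) * w p i) (2 * p + 2)
  refine ⟨-c5 * v ^ 5, fun i => R (-(p * v)) (w p) i ^ (2 * p + 2) *
    (c6 * v ^ 6 * w p i ^ 4 - v ^ 7 * w p i ^ 5 * t i), fun i hi => ?_⟩
  rw [mem_range] at hi
  have hw := w_mul p (i := i) (by omega)
  rw [ht i, hc5, hc6, choose2]
  push_cast
  generalize R (-(p * v)) (w p) i ^ (2 * p + 2) = Y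
  generalize t i = t'
  generalize w p i = x at *
  generalize (i : ℤ_[p]) = I at *
  generalize (((2 * p + 2).choose 3 : ℕ) : ℤ_[p]) = C3
  generalize (((2 * p + 2).choose 4 : ℕ) : ℤ_[p]) = C4
  have e2 : (I + 1) ^ 2 * x ^ 2 = 1 := by
    have : (I + 1) ^ 2 * x ^ 2 = ((I + 1) * x) ^ 2 := by ring
    rw [this, hw]; ring
  generalize (p : ℤ_[p]) = P
  linear_combination (Y * (2 * P * (-(P * v)) * (I + 1))) * hw +
    (Y * ((2 * P ^ 2 + 3 * P) * (P * v) ^ 2 - C3 * (P * v) ^ 3 * x + C4 * (P * v) ^ 4 * x ^ 2 -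
      P * c5 * (P * v) ^ 5 * x ^ 3 + P * c6 * (P * v) ^ 6 * x ^ 4 - (P * v) ^ 7 * x ^ 5 * t')) * e2

theorem main7 {v : ℤ_[p]} (hv : (1 + p) * v = 1) (h7 : 6 < p) :
    ∃ t, (1 - (p : ℤ_[p])) * (∑ k ∈ range p, (2 * (k : ℤ_[p]) + 1 + (-(p * v))) *
      R (-(p * v)) (w p) k ^ (2 * p + 2)) = p ^ 7 * t := by
  obtain ⟨η, hη⟩ := exists_inv p (m := 2) (by norm_num) (by omega)
  obtain ⟨τ, hτ⟩ := exists_inv p (m := 3) (by norm_num) (by omega)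
  push_cast at hη hτ
  obtain ⟨c5, d, hd⟩ := per_term7 p (v := v) h7
  obtain ⟨r, hr⟩ := val_rho p hv hτ (by omega)
  obtain ⟨z, hz⟩ := val_Z p hv hτ (by omega)
  obtain ⟨y1, hy1⟩ := val_Y1 p hv hτ (by omega)
  obtain ⟨y2, hy2⟩ := val_Y2 p hv hτ (by omega)
  obtain ⟨y3, hy3⟩ := val_Y3 p hv hτ (by omega)
  obtain ⟨c, hc⟩ := val_C p (by omega)
  obtain ⟨κ, hκ⟩ := dvd_Q p (by omega)
  have hrel := choose_rel p
  have hC3 := choose3 p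
  have hC4 := choose4 p
  have h1p := hp.out.one_lt
  have hpr : p - 1 + 1 = p := by omega
  have hcp : (((p - 1 : ℕ)) : ℤ_[p]) = p - 1 := by
    push_cast [Nat.cast_sub hp.out.one_lt.le]
    ring
  have hw : ∀ i < p - 1, ((i : ℤ_[p]) + 1) * w p i = 1 := fun i hi => w_mul p (by omega)
  have hparts := parts' (-(p * v)) (w p) (2 * p + 2) (p - 1) hw
  rw [hpr, sum_congr rfl hd, sum_add_distrib, sum_add_distrib, sum_add_distrib, sum_add_distrib,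
    sum_add_distrib, ← mul_sum, ← mul_sum, ← mul_sum, ← mul_sum, ← mul_sum, ← mul_sum, hy1, hy2,
    hy3, hcp] at hparts
  have hZ : ∑ n ∈ range p, R (-(p * v)) (w p) n ^ (2 * p + 2) =
      (∑ i ∈ range (p - 1), R (-(p * v)) (w p) i ^ (2 * p + 2)) +
        R (-(p * v)) (w p) (p - 1) ^ (2 * p + 2) := by
    have e : range p = range (p - 1 + 1) := by rw [hpr]
    rw [e, sum_range_succ]
  rw [hZ] at hz
  have hS : ∑ k ∈ range p, (2 * (k : ℤ_[p]) + 1 + (-(p * v))) *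
      R (-(p * v)) (w p) k ^ (2 * p + 2) =
      2 * (∑ i ∈ range (p - 1), ((i : ℤ_[p]) + 1) * R (-(p * v)) (w p) i ^ (2 * p + 2)) +
      (-(p * v) - 1) * (∑ i ∈ range (p - 1), R (-(p * v)) (w p) i ^ (2 * p + 2)) +
      (2 * p - 1 + -(p * v)) * R (-(p * v)) (w p) (p - 1) ^ (2 * p + 2) := by
    have e : range p = range (p - 1 + 1) := by rw [hpr]
    rw [e, sum_range_succ, mul_sum, mul_sum, ← sum_add_distrib, hcp]
    congr 1
    · apply sum_congr rfl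
      intro i _
      ring
    · ring
  generalize ∑ k ∈ range p, (2 * (k : ℤ_[p]) + 1 + (-(p * v))) *
      R (-(p * v)) (w p) k ^ (2 * p + 2) = T at *
  generalize ∑ i ∈ range (p - 1), ((i : ℤ_[p]) + 1) * R (-(p * v)) (w p) i ^ (2 * p + 2) = Y1 at *
  generalize ∑ i ∈ range (p - 1), R (-(p * v)) (w p) i ^ (2 * p + 2) = Y0 at *
  generalize ∑ i ∈ range (p - 1), d i = D at *
  generalize R (-(p * v)) (w p) (p - 1) ^ (2 * p + 2) = ρ at *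
  generalize ((2 * p - 1).choose (p - 1) : ℤ_[p]) = CC at *
  generalize ((2 * p - 2).choose (p - 1) : ℤ_[p]) = Cc at *
  generalize (((2 * p + 2).choose 3 : ℕ) : ℤ_[p]) = C3 at *
  generalize (((2 * p + 2).choose 4 : ℕ) : ℤ_[p]) = C4 at *
  clear hd hy1 hy2 hy3 hw hZ
  generalize Q (w p) (p - 1) = q at *
  generalize (p : ℤ_[p]) = P at *
  -- step A
  have hA : (1 - P) * T = ρ * ((P - P * v) ^ 2 - P * (P * v) * (2 * P - 1 - P * v)) +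
      Y0 * (P * (P * v) * (P * v + 1) - (2 * P ^ 2 + 3 * P) * (P ^ 2 * v ^ 2)) +
      C3 * (P ^ 3 * v ^ 3) * (-P * q + P ^ 3 * y1) -
      C4 * (P ^ 4 * v ^ 4) * (-2 * q + P ^ 2 * y2) - P ^ 6 * c5 * (P * y3) - P ^ 7 * D := by
    linear_combination hparts - P * (P * v) * hS + T * P * hv
  have hB : (P - P * v) ^ 2 - P * (P * v) * (2 * P - 1 - P * v) = P ^ 2 * (1 - 2 * P * v) := by
    linear_combination P ^ 2 * v * hv
  have hC : P * (P * v) * (P * v + 1) - (2 * P ^ 2 + 3 * P) * (P ^ 2 * v ^ 2) =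
      P ^ 2 * v * (1 - 2 * P) := by
    linear_combination (-2 * P ^ 3 * v) * hv
  have hD : ρ * (P ^ 2 * (1 - 2 * P * v)) + Y0 * (P ^ 2 * v * (1 - 2 * P)) =
      P ^ 6 * v * κ + P ^ 7 * (v * r - v * c + v * (1 - 2 * P) * z) := by
    linear_combination (P ^ 2 * v * (1 - 2 * P)) * hz + (P ^ 3 * v) * hr +
      (P ^ 2 * v) * hrel - (P ^ 3 * v) * hc + (P ^ 5 * v) * hκ - P ^ 2 * ρ * hv
  have hC3' : C3 = τ * (2 * P * (P + 1) * (2 * P + 1)) := by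
    linear_combination τ * hC3 - C3 * hτ
  have hC4' : C4 = η * τ * (P * (P + 1) * (2 * P + 1) * (2 * P - 1)) := by
    linear_combination η * τ * hC4 - 3 * τ * C4 * hη - C4 * hτ
  have hv3 : (P + 1) * (2 * P + 1) * v ^ 3 = 1 - P ^ 2 * v ^ 2 := by
    linear_combination ((2 * P + 1) * v ^ 2 + (1 + P) * v + 1) * hv
  have hE : C3 * (P ^ 3 * v ^ 3) * (-P * q + P ^ 3 * y1) =
      -2 * τ * P ^ 6 * κ + P ^ 7 * (2 * τ * P * v ^ 2 * κ + 2 * τ * y1 * (1 - P ^ 2 * v ^ 2)) := by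
    linear_combination (P ^ 3 * v ^ 3 * (-P * q + P ^ 3 * y1)) * hC3' +
      (2 * τ * P ^ 4 * (-P * q + P ^ 3 * y1)) * hv3 - (2 * τ * P ^ 5 * (1 - P ^ 2 * v ^ 2)) * hκ
  have hF : C4 * (P ^ 4 * v ^ 4) * (-2 * q + P ^ 2 * y2) =
      τ * P ^ 6 * κ + P ^ 7 * (τ * κ * (-3 * v - P * v ^ 2 + 3 * P ^ 2 * v ^ 3) +
        η * τ * (2 * P - 1) * v * (1 - P ^ 2 * v ^ 2) * y2) := by
    linear_combination (P ^ 4 * v ^ 4 * (-2 * q + P ^ 2 * y2)) * hC4' +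
      (η * τ * P ^ 5 * (2 * P - 1) * v * (-2 * q + P ^ 2 * y2)) * hv3 -
      (2 * η * τ * P ^ 5 * (2 * P - 1) * v * (1 - P ^ 2 * v ^ 2)) * hκ -
      (τ * P ^ 6 * κ * (2 * P - 1) * v * (1 - P ^ 2 * v ^ 2)) * hη +
      (τ * P ^ 6 * κ * (1 - P ^ 2 * v ^ 2)) * hv
  refine ⟨(v * r - v * c + v * (1 - 2 * P) * z) +
    (2 * τ * P * v ^ 2 * κ + 2 * τ * y1 * (1 - P ^ 2 * v ^ 2)) -
    (τ * κ * (-3 * v - P * v ^ 2 + 3 * P ^ 2 * v ^ 3) +
        η * τ * (2 * P - 1) * v * (1 - P ^ 2 * v ^ 2) * y2) - κ * v - c5 * y3 - D, ?_⟩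
  linear_combination hA + ρ * hB + Y0 * hC + hD + hE - hF + (P ^ 6 * κ) * hv - (P ^ 6 * κ) * hτ

end Padic

end Pool.Agent.X234.SD
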